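import Mathlib

/-!
# Heights of tuples of preperiodic points of unicritical polynomials
-/

set_option autoImplicit false

namespace Pool.Agent.N741.UN

open Height Height.AdmissibleAbsValues Function Multiset

variable {K : Type} [Field K] [NumberField K]

omit [NumberField K] in
theorem arch_le {ι ι' : Type} [Finite ι] [Nonempty ι'] (v : AbsoluteValue K ℝ)
    {x : ι → K} {y : ι' → K} (h : ∀ i', ∃ i j, y i' = x i ∨ y i' = x i - x j) :
    ⨆ i', v (y i') ≤ 2 * ⨆ i, v (x i) := by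
  refine ciSup_le fun i' => ?_
  obtain ⟨i, j, hh⟩ := h i'
  have h1 : v (x i) ≤ ⨆ i, v (x i) := Finite.le_ciSup_of_le i le_rfl
  have h2 : v (x j) ≤ ⨆ i, v (x i) := Finite.le_ciSup_of_le j le_rfl
  have h3 : 0 ≤ v (x i) := v.nonneg _
  rcases hh with hh | hh
  · rw [hh]
    linarith
  · rw [hh, sub_eq_add_neg]
    have := v.add_le (x i) (-x j)
    rw [v.map_neg] at this
    linarith

omit [NumberField K] in
theorem nonarch_le {ι ι' : Type} [Finite ι] [Nonempty ι'] {v : AbsoluteValue K ℝ}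
    (hv : IsNonarchimedean v) {x : ι → K} {y : ι' → K}
    (h : ∀ i', ∃ i j, y i' = x i ∨ y i' = x i - x j) : ⨆ i', v (y i') ≤ ⨆ i, v (x i) := by
  refine ciSup_le fun i' => ?_
  obtain ⟨i, j, hh⟩ := h i'
  have h1 : v (x i) ≤ ⨆ i, v (x i) := Finite.le_ciSup_of_le i le_rfl
  have h2 : v (x j) ≤ ⨆ i, v (x i) := Finite.le_ciSup_of_le j le_rfl
  rcases hh with hh | hh
  · rw [hh]
    exact h1
  · rw [hh, sub_eq_add_neg]
    have := hv (x i) (-x j)
    rw [v.map_neg] at this
    exact this.trans (max_le h1 h2)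

/-- tuples of differences of coordinates -/
theorem mulHeight_diff_le {ι ι' : Type} [Finite ι] [Finite ι'] (x : ι → K) (y : ι' → K)
    (h : ∀ i', ∃ i j, y i' = x i ∨ y i' = x i - x j) :
    mulHeight y ≤ 2 ^ Module.finrank ℚ K * mulHeight x := by
  have H₀ : (1 : ℝ) ≤ 2 ^ Module.finrank ℚ K * mulHeight x := by
    have h1 : (1 : ℝ) ≤ 2 ^ Module.finrank ℚ K := one_le_pow₀ (by norm_num)
    nlinarith [one_le_mulHeight x]
  rcases eq_or_ne y 0 with hy | hy
  · rwa [hy, mulHeight_zero]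
  have hx : x ≠ 0 := by
    rintro rfl
    apply hy
    funext i'
    obtain ⟨i, j, hh⟩ := h i'
    rcases hh with hh | hh
    · rw [hh]; rfl
    · rw [hh]; simp
  have : Nonempty ι' := (ne_iff.mp hy).nonempty
  rw [← NumberField.totalWeight_eq_finrank, mulHeight_eq hy, mulHeight_eq hx, ← mul_assoc]
  gcongr
  · exact finprod_nonneg fun v ↦ Real.iSup_nonneg_of_nonnegHomClass v.val _
  · exact mul_nonneg (by positivity)
      (prod_map_nonneg fun v _ ↦ Real.iSup_nonneg_of_nonnegHomClass v _)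
  · rw [← prod_replicate, totalWeight, ← map_const', ← prod_map_mul]
    exact prod_map_le_prod_map₀ _ _ (fun v _ ↦ Real.iSup_nonneg_of_nonnegHomClass v _)
      fun v _ ↦ arch_le v h
  · exact finprod_le_finprod (by fun_prop)
      (fun v ↦ Real.iSup_nonneg_of_nonnegHomClass v.val _) (by fun_prop) fun v ↦
        nonarch_le (isNonarchimedean _ v.prop) h

/-- quotients -/
theorem mulHeight₁_div_le {ι : Type} [Finite ι] (x : ι → K) (a b : K)
    (ha : ∃ i j, a = x i ∨ a = x i - x j) (hb : ∃ i j, b = x i ∨ b = x i - x j) :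
    mulHeight₁ (a / b) ≤ 2 ^ Module.finrank ℚ K * mulHeight x := by
  rw [mulHeight₁_div_eq_mulHeight]
  refine mulHeight_diff_le x _ ?_
  rw [Fin.forall_fin_two]
  exact ⟨ha, hb⟩

/-- quotients of coordinates -/
theorem mulHeight₁_div_le' {ι : Type} [Finite ι] (x : ι → K) (i j : ι) :
    mulHeight₁ (x i / x j) ≤ mulHeight x := by
  rw [mulHeight₁_div_eq_mulHeight]
  have := mulHeight_comp_le ![i, j] x
  convert this using 2
  funext k
  fin_cases k <;> rfl

/-- **The height of a finite forward invariant set** for `w ↦ t w ^ d + 1` -/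
theorem height_orbit {ι : Type} [Finite ι] {d : ℕ} (hd : 2 ≤ d) {t : K} (ht : t ≠ 0) (x : ι → K)
    (F : ι → ι) (hF : ∀ i, x (F i) = t * x i ^ d + 1) :
    mulHeight x ^ (d * (d - 1)) ≤ (2 ^ Module.finrank ℚ K) ^ d * mulHeight₁ t := by
  classical
  obtain ⟨c, hc⟩ : ∃ c : ℝ, c = 2 ^ Module.finrank ℚ K := ⟨_, rfl⟩
  have hc1 : 1 ≤ c := by rw [hc]; exact one_le_pow₀ (by norm_num)
  rw [← hc]
  -- the tuple `(1, x)`
  obtain ⟨X, hX⟩ : ∃ X : Option ι → K, X = fun o => o.elim 1 x := ⟨_, rfl⟩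
  have hX0 : X ≠ 0 := by
    intro h0
    have := congrFun h0 none
    rw [hX] at this
    exact one_ne_zero this
  -- the tuple `(t, (x (F i) - 1))`
  have h1 : mulHeight X ^ d ≤ c * (mulHeight₁ t * mulHeight X) := by
    rw [← mulHeight_pow, ← mulHeight_smul_eq_mulHeight (X ^ d) ht, mulHeight₁_eq_mulHeight,
      ← mulHeight_fun_mul_eq (x := ![t, 1]) (by
        intro h0
        have := congrFun h0 1
        exact one_ne_zero this) hX0, hc]
    refine mulHeight_diff_le _ _ fun o => ?_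
    rcases o with _ | i
    · refine ⟨(0, none), (0, none), Or.inl ?_⟩
      simp [hX]
    · refine ⟨(1, some (F i)), (1, none), Or.inr ?_⟩
      simp [hX, hF]
  have h2 : mulHeight x ^ d ≤ c * mulHeight X := by
    rw [← mulHeight_pow, ← mulHeight_smul_eq_mulHeight (x ^ d) ht, hc]
    refine mulHeight_diff_le _ _ fun i => ⟨some (F i), none, Or.inr ?_⟩
    simp [hX, hF]
  have hXp : 0 < mulHeight X := mulHeight_pos X
  have h3 : mulHeight X ^ (d - 1) ≤ c * mulHeight₁ t := by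
    have h4 : mulHeight X ^ (d - 1) * mulHeight X ≤ (c * mulHeight₁ t) * mulHeight X := by
      rw [← pow_succ, show d - 1 + 1 = d by omega]
      linarith
    exact le_of_mul_le_mul_right h4 hXp
  calc mulHeight x ^ (d * (d - 1)) = (mulHeight x ^ d) ^ (d - 1) := by rw [pow_mul]
    _ ≤ (c * mulHeight X) ^ (d - 1) := pow_le_pow_left₀ (pow_nonneg (mulHeight_pos x).le _) h2 _
    _ = c ^ (d - 1) * mulHeight X ^ (d - 1) := mul_pow _ _ _
    _ ≤ c ^ (d - 1) * (c * mulHeight₁ t) := mul_le_mul_of_nonneg_left h3 (by positivity)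
    _ = c ^ d * mulHeight₁ t := by
        rw [← mul_assoc, ← pow_succ, show d - 1 + 1 = d by omega]

/-- the height of the tuple is at most `(2 Y) ^ [K : ℚ]` -/
theorem height_le {ι : Type} [Finite ι] {d : ℕ} (hd : 2 ≤ d) {t : K} (ht : t ≠ 0) (x : ι → K)
    (F : ι → ι) (hF : ∀ i, x (F i) = t * x i ^ d + 1) {Y : ℝ} (hY : 1 ≤ Y)
    (hH : mulHeight₁ t ≤ (Y ^ (d * (d - 1))) ^ Module.finrank ℚ K) :
    mulHeight x ≤ (2 * Y) ^ Module.finrank ℚ K := by
  obtain ⟨N, hN⟩ : ∃ N, N = Module.finrank ℚ K := ⟨_, rfl⟩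
  have h1 := height_orbit hd ht x F hF
  rw [← hN] at h1 hH ⊢
  have hd0 : d * (d - 1) ≠ 0 := by
    have : d - 1 ≠ 0 := by omega
    positivity
  have hdd : d ≤ d * (d - 1) := Nat.le_mul_of_pos_right _ (by omega)
  refine le_of_pow_le_pow_left₀ hd0 (by positivity) (h1.trans ?_)
  calc (2 ^ N) ^ d * mulHeight₁ t ≤ (2 ^ N) ^ (d * (d - 1)) * (Y ^ (d * (d - 1))) ^ N := by
        refine mul_le_mul (pow_le_pow_right₀ (one_le_pow₀ (by norm_num)) hdd) hH
          (mulHeight₁_pos t).le (by positivity)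
    _ = ((2 * Y) ^ N) ^ (d * (d - 1)) := by
        rw [mul_pow, mul_pow, ← pow_mul Y, ← pow_mul Y, mul_comm (d * (d - 1)) N]

end Pool.Agent.N741.UN
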