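import Mathlib
import Pool.Agent.N741.UN.Ht
import Pool.Agent.N741.HB.Thm4
import Pool.Agent.Y902.GN.FinB

/-!
# Unicritical polynomials over all number fields of bounded degree: ratios of preperiodic points
-/

set_option autoImplicit false

namespace Pool.Agent.N741.UN

open Height Pool.Agent.N741.HK Pool.Agent.Y902.GN

/-- the ratios of the solutions of the equations in two terms -/
def Rat (κ R : ℕ) (δ : ℝ) (Z : ℕ) : Set ℂ :=
  {q | ∃ β : Fin 2 → ℂ, SolF 2 κ R δ Z (fun _ => (1 : ℤ)) 1 β ∧ q = β 0 / β 1}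

theorem solF_ne {P κ R : ℕ} {δ : ℝ} {Y n : ℕ} {u : Fin n → ℤ} {v : ℤ} {β : Fin n → ℂ}
    (h : SolF P κ R δ Y u v β) (i : Fin n) : β i ≠ 0 := by
  obtain ⟨K, _, _, σ, y, s, s0, z, f, e₀, d, r, h1, h2, h3, h4, h5, h6, h7, h8, h9, h10, h11, h12,
    h13⟩ := h
  rw [h12 i, map_ne_zero]
  exact Finset.prod_ne_zero_iff.2 fun j _ => pow_ne_zero _ (h8 j).1

/-- **There are few ratios.** -/
theorem rat_card (κ : ℕ) (ε : ℝ) (hε : 0 < ε) : ∃ (R : ℕ) (δ : ℝ), 0 < δ ∧ ∀ Z : ℕ, 1 ≤ Z →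
    (Rat κ R δ Z).Finite ∧ ((Rat κ R δ Z).ncard : ℝ) ≤ (Z : ℝ) ^ ε := by
  classical
  obtain ⟨R, δ, hδ, H⟩ := rk2 2 2 κ ε (by norm_num) hε
  refine ⟨R, δ, hδ, fun Z hZ => fin_of_bound _ _ fun T hT => ?_⟩
  have hexp : (1 : ℝ) ≤ Real.exp ((Z : ℝ) ^ δ) := Real.one_le_exp (by positivity)
  choose! β hβ hq using hT
  have key := H Z hZ (fun _ => (1 : ℤ)) 1 (fun i => ⟨one_ne_zero, by simpa using hexp⟩)
    (by simpa using hexp) (T.image β) (fun b hb => ?_) (fun b hb b' hb' hh => ?_)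
  · rwa [Finset.card_image_of_injOn (fun q hqT q' hqT' hh => ?_)] at key
    rw [hq q hqT, hq q' hqT', hh]
  · obtain ⟨q, hqT, rfl⟩ := Finset.mem_image.1 hb
    exact hβ q hqT
  · obtain ⟨q, hqT, rfl⟩ := Finset.mem_image.1 hb
    obtain ⟨q', hqT', rfl⟩ := Finset.mem_image.1 hb'
    have h1 : q = q' := by
      rw [hq q hqT, hq q' hqT', div_eq_div_iff (solF_ne (hβ q hqT) 1) (solF_ne (hβ q' hqT') 1)]
      have := hh 0 1
      linear_combination this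
    rw [h1]

/-- a solution -/
theorem mem_rat {κ R d Z : ℕ} {δ : ℝ} (hR : R ≤ d) (hd : (d : ℝ) ≤ (Z : ℝ) ^ δ)
    (hZ : 1 ≤ Z) (hδ : 0 ≤ δ) {K : Type} [Field K] [NumberField K] (σ : K →+* ℂ)
    (hκ : Module.finrank ℚ K ≤ κ) {x1 x2 s1 s2 s0 : K} (h1 : x1 ≠ 0) (h2 : x2 ≠ 0) (h3 : s1 ≠ 0)
    (h4 : s2 ≠ 0) (h5 : s0 ≠ 0) (g1 : mulHeight₁ x1 ≤ (Z : ℝ)) (g2 : mulHeight₁ x2 ≤ (Z : ℝ))
    (g3 : mulHeight₁ s1 ≤ (Z : ℝ)) (g4 : mulHeight₁ s2 ≤ (Z : ℝ)) (g5 : mulHeight₁ s0 ≤ (Z : ℝ))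
    (h : s1 * x1 ^ d + s2 * x2 ^ d = s0) : σ (x1 / x2) ∈ Rat κ R δ Z := by
  have hZ1 : (1 : ℝ) ≤ (Z : ℝ) := by exact_mod_cast hZ
  have hZδ : (1 : ℝ) ≤ (Z : ℝ) ^ δ := Real.one_le_rpow hZ1 hδ
  obtain ⟨f, hf⟩ : ∃ f : Fin 2 → Fin 2 → ℕ, f = ![![1, 0], ![0, 1]] := ⟨_, rfl⟩
  have hp : ∀ i, ∏ j, (![x1, x2] : Fin 2 → K) j ^ f i j = (![x1, x2] : Fin 2 → K) i := by
    rw [Fin.forall_fin_two, hf]
    constructor
    · rw [Fin.prod_univ_two]; simp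
    · rw [Fin.prod_univ_two]; simp
  refine ⟨fun i => σ ((![x1, x2] : Fin 2 → K) i), ⟨K, inferInstance, inferInstance, σ, ![x1, x2],
    ![s1, s2], s0, 1, f, fun _ => 0, d, d, hκ, hR, hd, hR, hd, ?_, ?_, ?_, ?_, h5, g5, ?_, ?_, ?_⟩,
    ?_⟩
  · rw [hf]
    intro i j
    fin_cases i <;> fin_cases j <;> simp <;> linarith
  · intro j
    simp only [Nat.cast_zero]
    linarith
  · rw [Fin.forall_fin_two]
    exact ⟨⟨h1, g1⟩, ⟨h2, g2⟩⟩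
  · rw [Fin.forall_fin_two]
    exact ⟨⟨h3, g3⟩, ⟨h4, g4⟩⟩
  · intro i
    rw [hp]
  · intro J hJ
    have e : ∀ i : Fin 2, ((1 : ℤ) : K) * ((![s1, s2] : Fin 2 → K) i *
        (∏ j, (![x1, x2] : Fin 2 → K) j ^ f i j) ^ d) = ![s1 * x1 ^ d, s2 * x2 ^ d] i := by
      intro i
      rw [hp i]
      fin_cases i <;> simp
    rw [Finset.sum_congr rfl fun i _ => e i]
    have hJ' : J = {0} ∨ J = {1} ∨ J = {0, 1} := by
      revert J
      decide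
    rcases hJ' with rfl | rfl | rfl
    · rw [Finset.sum_singleton]
      exact mul_ne_zero h3 (pow_ne_zero _ h1)
    · rw [Finset.sum_singleton]
      exact mul_ne_zero h4 (pow_ne_zero _ h2)
    · rw [Finset.sum_pair (by decide)]
      show s1 * x1 ^ d + s2 * x2 ^ d ≠ 0
      rw [h]
      exact h5
  · rw [Fin.sum_univ_two, hp 0, hp 1]
    simp only [pow_zero, Finset.prod_const_one, one_pow, mul_one, Int.cast_one, one_mul]
    exact h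
  · show σ (x1 / x2) = σ x1 / σ x2
    exact map_div₀ σ _ _

/-- a finite set which is invariant under `w ↦ t w ^ d + 1` -/
structure Inv (κ R : ℕ) (δ : ℝ) (Y d : ℕ) {K : Type} [Field K] [NumberField K] (t : K)
    (S : Set K) : Prop where
  fin : S.Finite
  inv : ∀ w ∈ S, t * w ^ d + 1 ∈ S
  t0 : t ≠ 0
  d2 : 2 ≤ d
  dR : R ≤ d
  dδ : (d : ℝ) ≤ (Y : ℝ) ^ δ
  deg : Module.finrank ℚ K ≤ κ
  ht : mulHeight₁ t ≤ ((Y : ℝ) ^ (d * (d - 1))) ^ Module.finrank ℚ K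

section
variable {κ R : ℕ} {δ : ℝ} {Y d Z : ℕ} {K : Type} [Field K] [NumberField K] {t : K} {S : Set K}

theorem Inv.ht1 (h : Inv κ R δ Y d t S) (hY : 1 ≤ Y) {a b : K}
    (ha : ∃ x ∈ S, ∃ y ∈ S, a = x ∨ a = x - y) (hb : ∃ x ∈ S, ∃ y ∈ S, b = x ∨ b = x - y) :
    mulHeight₁ (a / b) ≤ (4 * (Y : ℝ)) ^ Module.finrank ℚ K := by
  have : Finite S := h.fin
  have hY1 : (1 : ℝ) ≤ (Y : ℝ) := by exact_mod_cast hY
  have h1 := height_le h.d2 h.t0 (fun w : S => w.1) (fun w => ⟨_, h.inv w.1 w.2⟩)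
    (fun w => rfl) hY1 h.ht
  refine (mulHeight₁_div_le (fun w : S => w.1) a b ?_ ?_).trans ?_
  · obtain ⟨x, hx, y, hy, h2⟩ := ha
    exact ⟨⟨x, hx⟩, ⟨y, hy⟩, h2⟩
  · obtain ⟨x, hx, y, hy, h2⟩ := hb
    exact ⟨⟨x, hx⟩, ⟨y, hy⟩, h2⟩
  · calc _ ≤ 2 ^ Module.finrank ℚ K * (2 * (Y : ℝ)) ^ Module.finrank ℚ K :=
          mul_le_mul_of_nonneg_left h1 (by positivity)
      _ = _ := by rw [← mul_pow]; ring

/-- ratios of preperiodic points with different `d`-th powers, if there is a third one -/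
theorem Inv.three (h : Inv κ R δ Y d t S) (hY : 1 ≤ Y) (hδ : 0 ≤ δ) (hZ : Z = (16 * Y) ^ κ)
    (hκ : 1 ≤ κ) (σ : K →+* ℂ) {x y z : K} (hx : x ∈ S) (hy : y ∈ S) (hz : z ∈ S) (hx0 : x ≠ 0)
    (hy0 : y ≠ 0) (hz0 : z ≠ 0) (hxy : x ^ d ≠ y ^ d) (hxz : x ^ d ≠ z ^ d) (hyz : y ^ d ≠ z ^ d) :
    σ (x / z) ∈ Rat κ R δ Z := by
  have hY1 : (1 : ℝ) ≤ (Y : ℝ) := by exact_mod_cast hY
  have hYZ : (Y : ℝ) ≤ (Z : ℝ) := by
    have h1 : Y ≤ Z := by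
      rw [hZ]
      calc Y ≤ 16 * Y := by omega
        _ ≤ (16 * Y) ^ κ := Nat.le_self_pow (by omega) _
    exact_mod_cast h1
  have hle : (4 * (Y : ℝ)) ^ Module.finrank ℚ K ≤ (Z : ℝ) := by
    rw [hZ]
    push_cast
    calc (4 * (Y : ℝ)) ^ Module.finrank ℚ K ≤ (16 * (Y : ℝ)) ^ Module.finrank ℚ K :=
          pow_le_pow_left₀ (by positivity) (by linarith) _
      _ ≤ (16 * (Y : ℝ)) ^ κ := pow_le_pow_right₀ (by linarith) h.deg
  obtain ⟨F, hF⟩ : ∃ F : K → K, F = fun w => t * w ^ d + 1 := ⟨_, rfl⟩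
  have hFS : ∀ w ∈ S, F w ∈ S := fun w hw => by rw [hF]; exact h.inv w hw
  have hdiff : ∀ w w' : K, F w - F w' = t * (w ^ d - w' ^ d) := fun w w' => by
    rw [hF]; ring
  have e1 : F x - F z ≠ 0 := by
    rw [hdiff]; exact mul_ne_zero h.t0 (sub_ne_zero.2 hxz)
  have e2 : F x - F y ≠ 0 := by
    rw [hdiff]; exact mul_ne_zero h.t0 (sub_ne_zero.2 hxy)
  have e3 : F y - F z ≠ 0 := by
    rw [hdiff]; exact mul_ne_zero h.t0 (sub_ne_zero.2 hyz)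
  have hq : x / z = (x / y) / (z / y) := by
    field_simp
  rw [hq]
  refine mem_rat (d := d) h.dR (h.dδ.trans (Real.rpow_le_rpow (by positivity) hYZ hδ))
    (by rw [hZ]; exact Nat.one_le_pow _ _ (by omega)) hδ σ h.deg
    (s1 := (F y - F z) / (F x - F z)) (s2 := (F x - F y) / (F x - F z)) (s0 := 1)
    (div_ne_zero hx0 hy0) (div_ne_zero hz0 hy0) (div_ne_zero e3 e1) (div_ne_zero e2 e1) one_ne_zero
    ?_ ?_ ?_ ?_ ?_ ?_
  · exact (h.ht1 hY ⟨x, hx, x, hx, Or.inl rfl⟩ ⟨y, hy, y, hy, Or.inl rfl⟩).trans hle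
  · exact (h.ht1 hY ⟨z, hz, z, hz, Or.inl rfl⟩ ⟨y, hy, y, hy, Or.inl rfl⟩).trans hle
  · exact (h.ht1 hY ⟨_, hFS y hy, _, hFS z hz, Or.inr rfl⟩
      ⟨_, hFS x hx, _, hFS z hz, Or.inr rfl⟩).trans hle
  · exact (h.ht1 hY ⟨_, hFS x hx, _, hFS y hy, Or.inr rfl⟩
      ⟨_, hFS x hx, _, hFS z hz, Or.inr rfl⟩).trans hle
  · rw [mulHeight₁_one]
    exact hY1.trans hYZ
  · rw [hdiff, hdiff, hdiff, div_pow, div_pow]
    have e4 : x ^ d - z ^ d ≠ 0 := sub_ne_zero.2 hxz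
    have e5 : y ^ d ≠ 0 := pow_ne_zero _ hy0
    have e6 := h.t0
    field_simp
    ring

/-- the critical point is preperiodic -/
theorem Inv.zero (h : Inv κ R δ Y d t S) (hY : 1 ≤ Y) (hδ : 0 ≤ δ) (hZ : Z = (16 * Y) ^ κ)
    (hκ : 1 ≤ κ) (σ : K →+* ℂ) (h0 : (0 : K) ∈ S) (h1 : t + 1 ≠ 0) :
    σ (t + 1) ∈ Rat κ R δ Z := by
  have hY1 : (1 : ℝ) ≤ (Y : ℝ) := by exact_mod_cast hY
  have hYZ : (Y : ℝ) ≤ (Z : ℝ) := by
    have h1 : Y ≤ Z := by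
      rw [hZ]
      calc Y ≤ 16 * Y := by omega
        _ ≤ (16 * Y) ^ κ := Nat.le_self_pow (by omega) _
    exact_mod_cast h1
  have hle0 : (16 * (Y : ℝ)) ^ Module.finrank ℚ K ≤ (Z : ℝ) := by
    rw [hZ]
    push_cast
    exact pow_le_pow_right₀ (by linarith) h.deg
  have hle : (4 * (Y : ℝ)) ^ Module.finrank ℚ K ≤ (Z : ℝ) :=
    (pow_le_pow_left₀ (by positivity) (by linarith) _).trans hle0
  have hd0 : d ≠ 0 := by have := h.d2; omega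
  have m1 : (1 : K) ∈ S := by
    have := h.inv 0 h0
    rwa [zero_pow hd0, mul_zero, zero_add] at this
  have m2 : t + 1 ∈ S := by
    have := h.inv 1 m1
    rwa [one_pow, mul_one] at this
  have m3 := h.inv _ m2
  have ht := h.t0
  have hpow : (t + 1) ^ d = (t * (t + 1) ^ d + 1 - 1) / (t + 1 - 1) := by
    rw [add_sub_cancel_right, add_sub_cancel_right]
    field_simp
  have hHpow : mulHeight₁ ((t + 1) ^ d) ≤ (4 * (Y : ℝ)) ^ Module.finrank ℚ K := by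
    rw [hpow]
    exact h.ht1 hY ⟨_, m3, _, m1, Or.inr rfl⟩ ⟨_, m2, _, m1, Or.inr rfl⟩
  have hH2 : mulHeight₁ (1 + 1 : K) ≤ 2 ^ Module.finrank ℚ K := by
    have := mulHeight₁_add_le (1 : K) 1
    rw [mulHeight₁_one, NumberField.totalWeight_eq_finrank] at this
    simpa using this
  have hsum : ∀ s2 : K, mulHeight₁ s2 ≤ 2 ^ Module.finrank ℚ K →
      mulHeight₁ ((t + 1) ^ d + s2) ≤ (Z : ℝ) := by
    intro s2 hs2
    have := mulHeight₁_add_le ((t + 1) ^ d) s2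
    rw [NumberField.totalWeight_eq_finrank] at this
    refine this.trans (le_trans ?_ hle0)
    calc 2 ^ Module.finrank ℚ K * mulHeight₁ ((t + 1) ^ d) * mulHeight₁ s2
        ≤ 2 ^ Module.finrank ℚ K * (4 * (Y : ℝ)) ^ Module.finrank ℚ K *
          2 ^ Module.finrank ℚ K := by
          refine mul_le_mul (mul_le_mul_of_nonneg_left hHpow (by positivity)) hs2
            (mulHeight₁_pos _).le (by positivity)
      _ = (16 * (Y : ℝ)) ^ Module.finrank ℚ K := by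
          rw [← mul_pow, ← mul_pow]; ring
  have h2Z : (2 : ℝ) ^ Module.finrank ℚ K ≤ (Z : ℝ) :=
    (pow_le_pow_left₀ (by positivity) (by linarith) _).trans hle0
  have hone : (1 : ℝ) ≤ 2 ^ Module.finrank ℚ K := one_le_pow₀ (by norm_num)
  obtain ⟨s2, hs2, hs20, hs0⟩ : ∃ s2 : K, mulHeight₁ s2 ≤ 2 ^ Module.finrank ℚ K ∧ s2 ≠ 0 ∧
      (t + 1) ^ d + s2 ≠ 0 := by
    by_cases h3 : (t + 1) ^ d + 1 = 0
    · refine ⟨1 + 1, hH2, by norm_num, ?_⟩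
      rw [← add_assoc, h3, zero_add]
      exact one_ne_zero
    · exact ⟨1, by rw [mulHeight₁_one]; exact hone, one_ne_zero, h3⟩
  have hq : t + 1 = (t + 1) / 1 := (div_one _).symm
  rw [hq]
  refine mem_rat (d := d) h.dR (h.dδ.trans (Real.rpow_le_rpow (by positivity) hYZ hδ))
    (by rw [hZ]; exact Nat.one_le_pow _ _ (by omega)) hδ σ h.deg
    (s1 := 1) (s2 := s2) (s0 := (t + 1) ^ d + s2) h1 one_ne_zero one_ne_zero hs20 hs0
    ?_ ?_ ?_ (hs2.trans h2Z) (hsum s2 hs2) ?_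
  · have := h.ht1 hY ⟨_, m2, _, m2, Or.inl rfl⟩ ⟨_, m1, _, m1, Or.inl rfl⟩
    rw [div_one] at this
    exact this.trans hle
  · rw [mulHeight₁_one]
    exact hY1.trans hYZ
  · rw [mulHeight₁_one]
    exact hY1.trans hYZ
  · rw [one_mul, one_pow, mul_one]

end

end Pool.Agent.N741.UN
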