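import Mathlib
import Pool.Agent.N741.HB.Thm4
import Pool.Agent.Y902.GN.Sc2

/-!
# Values of polynomials at generated integers: classes
-/

set_option autoImplicit false

namespace Pool.Agent.N741.UN

open Height Pool.Agent.N741.HK Pool.Agent.N741.HC Pool.Agent.N717.HK Pool.Agent.Y902.GN

theorem digits : ∀ (d : ℕ) (z : Fin d → ℤ) (x : ℤ), (∀ i, |z i| < |x|) →
    ∑ i, z i * x ^ (i : ℕ) = 0 → ∀ i, z i = 0
  | 0, _, _, _, _ => fun i => i.elim0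
  | d + 1, z, x, hz, h => by
    have hx : x ≠ 0 := by
      intro hx
      have := hz 0
      rw [hx, abs_zero] at this
      exact absurd this (not_lt.2 (abs_nonneg _))
    rw [Fin.sum_univ_succ] at h
    have e1 : ∑ i : Fin d, z i.succ * x ^ ((i.succ : Fin (d + 1)) : ℕ) =
        x * ∑ i : Fin d, z i.succ * x ^ (i : ℕ) := by
      rw [Finset.mul_sum]
      refine Finset.sum_congr rfl fun i _ => ?_
      rw [Fin.val_succ, pow_succ]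
      ring
    rw [e1, Fin.val_zero, pow_zero, mul_one] at h
    have h0 : z 0 = 0 := by
      refine Int.eq_zero_of_abs_lt_dvd (m := |x|) ((abs_dvd _ _).2 ?_) (hz 0)
      exact ⟨-(∑ i : Fin d, z i.succ * x ^ (i : ℕ)), by linear_combination h⟩
    rw [h0, zero_add] at h
    have h1 := (mul_eq_zero.1 h).resolve_left hx
    have ih := digits d (fun i => z i.succ) x (fun i => hz i.succ) h1
    intro i
    refine Fin.cases h0 (fun j => ih j) i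

/-- the enumeration of the support -/
noncomputable def sg {d : ℕ} (I : Finset (Fin (d + 1))) (j : Fin I.card) : Fin (d + 1) :=
  ((I.equivFin.symm j : {i // i ∈ I}) : Fin (d + 1))

theorem sg_mem {d : ℕ} (I : Finset (Fin (d + 1))) (j : Fin I.card) : sg I j ∈ I :=
  (I.equivFin.symm j).2

theorem sg_surj {d : ℕ} (I : Finset (Fin (d + 1))) {i : Fin (d + 1)} (hi : i ∈ I) :
    ∃ j, sg I j = i := by
  refine ⟨I.equivFin ⟨i, hi⟩, ?_⟩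
  unfold sg
  rw [Equiv.symm_apply_apply]

theorem sg_inj {d : ℕ} (I : Finset (Fin (d + 1))) : Function.Injective (sg I) := by
  intro j j' h
  exact I.equivFin.symm.injective (Subtype.ext h)

theorem sg_sum {d : ℕ} (I : Finset (Fin (d + 1))) (F : Fin (d + 1) → ℚ) :
    ∑ j, F (sg I j) = ∑ i ∈ I, F i := by
  unfold sg
  rw [Equiv.sum_comp I.equivFin.symm (fun i : {i // i ∈ I} => F i), Finset.sum_coe_sort I F]

/-- the data of the points; `t = (c, x, w)` -/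
structure Pt (d N R : ℕ) (δ : ℝ) (Z : ℕ) (I : Finset (Fin (d + 1)))
    (t : (Fin (d + 1) → ℤ) × ℤ × ℤ) : Prop where
  supp : ∀ i, i ∈ I ↔ t.1 i ≠ 0
  c1 : ∀ i, |t.1 i| ≤ (Z : ℤ)
  nv : ∀ J ⊆ I, J.Nonempty → ∑ i ∈ J, t.1 i * t.2.1 ^ (i : ℕ) ≠ 0
  val : t.2.2 = ∑ i, t.1 i * t.2.1 ^ (i : ℕ)
  gen : ∃ (η : ℤ) (b : Fin N → ℕ) (e : Fin N → ℕ), |η| = 1 ∧ (∀ j, 1 ≤ b j ∧ b j ≤ Z) ∧
    (∀ j, ((d * e j : ℕ) : ℝ) ≤ (Z : ℝ) ^ δ) ∧ t.2.1 = η * ∏ j, (b j : ℤ) ^ e j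
  pow : ∃ (s z : ℤ) (r : ℕ), s ≠ 0 ∧ |s| ≤ (Z : ℤ) ∧ 2 ≤ |z| ∧ R ≤ r ∧ (r : ℝ) ≤ (Z : ℝ) ^ δ ∧
    t.2.2 = s * z ^ r
  xb : ∀ i : Fin (d + 1), ((|t.2.1 ^ (i : ℕ)| : ℤ) : ℝ) ≤ Real.exp ((Z : ℝ) ^ δ)

/-- a rational number of small height -/
theorem small_rat : ∃ C : ℕ, ∀ (Y : ℕ) (c : ℂ), 1 ≤ Y → Small 1 (Y : ℝ) c →
    ∃ p q : ℤ, p ≠ 0 ∧ q ≠ 0 ∧ |p| ≤ ((Y : ℤ) + 1) ^ C ∧ |q| ≤ ((Y : ℤ) + 1) ^ C ∧ c * q = p := by
  obtain ⟨C, hC⟩ := Pool.Agent.N264.HC.code 1 1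
  refine ⟨C + C, ?_⟩
  rintro Y c hY ⟨K, _, _, σ, y, h1, h2, h3, h4⟩
  obtain ⟨k, K₀, α, m, D, D₁, v, g1, g2, g3, g4, g5, g6, g7, g8, g9, g10, g11, g12, -⟩ :=
    hC K Y (fun _ => y) h1 hY (fun _ => h3)
  have hk : k = 1 := le_antisymm g2 g1
  subst hk
  have h5 := g12 0
  rw [Fin.sum_univ_one, Fin.val_zero, pow_zero, mul_one] at h5
  have h6 : c * ((D * D₁ : ℕ) : ℤ) = (v 0 0 : ℤ) := by
    have h7 := congrArg σ h5
    rw [map_mul, map_mul, map_natCast, map_natCast, map_intCast, h4] at h7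
    push_cast
    linear_combination h7
  have hD0 : ((D * D₁ : ℕ) : ℤ) ≠ 0 := by
    exact_mod_cast Nat.mul_ne_zero g4 g5
  have hc0 : c ≠ 0 := by
    rw [← h4]
    exact (map_ne_zero σ).2 h2
  have hv0 : v 0 0 ≠ 0 := by
    intro h0
    rw [h0, Int.cast_zero] at h6
    rcases mul_eq_zero.1 h6 with h7 | h7
    · exact hc0 h7
    · exact hD0 (by exact_mod_cast h7)
  have hY1 : (1 : ℤ) ≤ (Y : ℤ) + 1 := by
    have : (0 : ℤ) ≤ (Y : ℤ) := Int.natCast_nonneg _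
    linarith
  refine ⟨v 0 0, ((D * D₁ : ℕ) : ℤ), hv0, hD0, ?_, ?_, h6⟩
  · exact (g9 0 0).trans (pow_le_pow_right₀ hY1 (by omega))
  · rw [pow_add, abs_of_nonneg (Int.natCast_nonneg _)]
    push_cast
    have a1 : (D : ℤ) ≤ ((Y : ℤ) + 1) ^ C := by exact_mod_cast g6
    have a2 : (D₁ : ℤ) ≤ ((Y : ℤ) + 1) ^ C := by exact_mod_cast g7
    exact mul_le_mul a1 a2 (Int.natCast_nonneg _) (by positivity)

theorem ht_nat {b Z : ℕ} (h1 : 1 ≤ b) (h2 : b ≤ Z) : ((b : ℕ) : ℚ) ≠ 0 ∧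
    mulHeight₁ ((b : ℕ) : ℚ) ≤ (Z : ℝ) := by
  have h0 : b ≠ 0 := by omega
  refine ⟨by exact_mod_cast h0, ?_⟩
  rw [Rat.mulHeight₁_eq_max]
  simp only [Rat.num_natCast, Rat.den_natCast, Int.natAbs_natCast]
  exact_mod_cast max_le h2 (h1.trans h2)

theorem ht_int {b : ℤ} {Z : ℕ} (h1 : b ≠ 0) (h2 : |b| ≤ (Z : ℤ)) : ((b : ℤ) : ℚ) ≠ 0 ∧
    mulHeight₁ ((b : ℤ) : ℚ) ≤ (Z : ℝ) := by
  refine ⟨by exact_mod_cast h1, ?_⟩
  rw [Rat.mulHeight₁_eq_max]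
  simp only [Rat.num_intCast, Rat.den_intCast]
  have h3 : b.natAbs ≤ Z := by
    rw [Int.abs_eq_natAbs] at h2
    exact_mod_cast h2
  have h4 : 1 ≤ b.natAbs := Int.natAbs_pos.2 h1
  exact_mod_cast max_le h3 (h4.trans h3)

/-- the vector of the terms -/
noncomputable def terms {d : ℕ} (I : Finset (Fin (d + 1))) (t : (Fin (d + 1) → ℤ) × ℤ × ℤ) :
    Fin I.card → ℂ := fun j => ((t.1 (sg I j) * t.2.1 ^ ((sg I j : Fin (d + 1)) : ℕ) : ℤ) : ℂ)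

theorem Pt.sol {d N R : ℕ} {δ : ℝ} {Z : ℕ} {I : Finset (Fin (d + 1))}
    {t : (Fin (d + 1) → ℤ) × ℤ × ℤ} (h : Pt d N R δ Z I t) (hZ : 1 ≤ Z) (hδ : 0 ≤ δ) :
    SolK (N + I.card + 1) 1 R δ Z (fun _ => (1 : ℤ)) 1 (terms I t) := by
  classical
  have hZ1 : (1 : ℝ) ≤ (Z : ℝ) ^ δ := Real.one_le_rpow (by exact_mod_cast hZ) hδ
  obtain ⟨η, b, e, hη, hb, he, hx⟩ := h.gen
  obtain ⟨s, z, r, hs0, hs, -, hR, hr, hw⟩ := h.pow
  have hη0 : η ≠ 0 := by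
    rintro rfl
    rw [abs_zero] at hη
    exact zero_ne_one hη
  obtain ⟨y, hy⟩ : ∃ y : Fin N → ℚ, y = fun j => ((b j : ℕ) : ℚ) := ⟨_, rfl⟩
  obtain ⟨u, hu⟩ : ∃ u : Fin I.card → ℚ, u = fun j =>
    ((t.1 (sg I j) * η ^ ((sg I j : Fin (d + 1)) : ℕ) : ℤ) : ℚ) := ⟨_, rfl⟩
  obtain ⟨f, hf⟩ : ∃ f : Fin I.card → Fin N → ℕ, f = fun j k =>
    ((sg I j : Fin (d + 1)) : ℕ) * e k := ⟨_, rfl⟩
  have hterm : ∀ j, ∏ q, yy y u (s : ℚ) q ^ ex 1 f j q =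
      ((t.1 (sg I j) * t.2.1 ^ ((sg I j : Fin (d + 1)) : ℕ) : ℤ) : ℚ) := by
    intro j
    rw [prod_ex, pow_one, hu, hy, hf, hx, mul_pow, ← Finset.prod_pow]
    push_cast
    rw [mul_assoc]
    congr 2
    refine Finset.prod_congr rfl fun k _ => ?_
    rw [← pow_mul, mul_comm]
  have hcast : ∀ j, ∏ q, ((yy y u (s : ℚ) q : ℚ) : ℂ) ^ ex 1 f j q = terms I t j := by
    intro j
    have h1 := congrArg (fun q : ℚ => (q : ℂ)) (hterm j)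
    unfold terms
    rw [Rat.cast_intCast] at h1
    rw [← h1]
    push_cast
    rfl
  have hyy : ∀ q, yy y u (s : ℚ) q ≠ 0 ∧ mulHeight₁ (yy y u (s : ℚ) q) ≤ (Z : ℝ) := by
    intro q
    unfold yy
    refine Fin.addCases (fun q => ?_) (fun q => ?_) q
    · rw [Fin.append_left]
      refine Fin.addCases (fun q => ?_) (fun i' => ?_) q
      · rw [Fin.append_left, hy]
        exact ht_nat (hb q).1 (hb q).2
      · rw [Fin.append_right, hu]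
        refine ht_int (mul_ne_zero ((h.supp _).1 (sg_mem I i')) (pow_ne_zero _ hη0)) ?_
        rw [abs_mul, abs_pow, hη, one_pow, mul_one]
        exact h.c1 _
    · rw [Fin.append_right]
      exact ht_int hs0 hs
  refine ⟨fun q => ((yy y u (s : ℚ) q : ℚ) : ℂ), ex 1 f,
    Fin.append (Fin.append (fun _ => 0) (fun _ : Fin I.card => 0)) (fun _ : Fin 1 => 1), r, hR, hr,
    ?_, ?_, ?_, ?_, fun j => (hcast j).symm⟩
  · intro j q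
    unfold ex
    refine Fin.addCases (fun q => ?_) (fun q => ?_) q
    · rw [Fin.append_left]
      refine Fin.addCases (fun q => ?_) (fun i' => ?_) q
      · rw [Fin.append_left, one_mul, hf]
        refine le_trans ?_ (he q)
        have h1 : ((sg I j : Fin (d + 1)) : ℕ) * e q ≤ d * e q :=
          Nat.mul_le_mul_right _ (Nat.lt_succ_iff.1 (sg I j).2)
        exact_mod_cast h1
      · rw [Fin.append_right]
        split_ifs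
        · simpa using hZ1
        · simp only [Nat.cast_zero]
          linarith
    · rw [Fin.append_right]
      simp only [Nat.cast_zero]
      linarith
  · intro q
    refine Fin.addCases (fun q => ?_) (fun q => ?_) q
    · rw [Fin.append_left]
      refine Fin.addCases (fun q => ?_) (fun i' => ?_) q
      · rw [Fin.append_left]
        simp only [Nat.cast_zero]
        linarith
      · rw [Fin.append_right]
        simp only [Nat.cast_zero]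
        linarith
    · rw [Fin.append_right]
      simpa using hZ1
  · intro J hJ h0
    obtain ⟨J', hJ'⟩ : ∃ J' : Finset (Fin (d + 1)), J' = J.map ⟨sg I, sg_inj I⟩ := ⟨_, rfl⟩
    refine h.nv J' ?_ ?_ ?_
    · intro i hi
      rw [hJ', Finset.mem_map] at hi
      obtain ⟨j, _, rfl⟩ := hi
      exact sg_mem I j
    · rw [hJ']
      exact hJ.map
    · rw [hJ', Finset.sum_map]
      have h1 : (((∑ j ∈ J, t.1 (sg I j) * t.2.1 ^ ((sg I j : Fin (d + 1)) : ℕ) : ℤ) : ℤ) : ℂ) = 0 := by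
        rw [← h0]
        push_cast
        refine Finset.sum_congr rfl fun j _ => ?_
        have := hcast j
        unfold terms at this
        push_cast at this
        rw [this]
        push_cast
        ring
      exact_mod_cast h1
  · refine ⟨ℚ, inferInstance, inferInstance, algebraMap ℚ ℂ, yy y u (s : ℚ), (z : ℚ), ?_, hyy,
      fun j => by rw [eq_ratCast], ?_⟩
    · rw [Module.finrank_self]
    · rw [prod_e0]
      simp only [pow_zero, Finset.prod_const_one, mul_one, Int.cast_one, one_mul]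
      rw [Finset.sum_congr rfl fun j _ => hterm j]
      have h1 : ∑ i ∈ I, ((t.1 i * t.2.1 ^ (i : ℕ) : ℤ) : ℚ) = ((t.2.2 : ℤ) : ℚ) := by
        rw [h.val, Int.cast_sum]
        refine Finset.sum_subset (Finset.subset_univ _) fun i _ hi => ?_
        have : t.1 i = 0 := by
          by_contra h'
          exact hi ((h.supp i).2 h')
        rw [this, zero_mul, Int.cast_zero]
      rw [sg_sum I (fun i => ((t.1 i * t.2.1 ^ (i : ℕ) : ℤ) : ℚ)), h1, hw]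
      push_cast
      ring

theorem Pt.x0 {d N R : ℕ} {δ : ℝ} {Z : ℕ} {I : Finset (Fin (d + 1))}
    {t : (Fin (d + 1) → ℤ) × ℤ × ℤ} (h : Pt d N R δ Z I t) : t.2.1 ≠ 0 := by
  obtain ⟨η, b, e, hη, hb, he, hx⟩ := h.gen
  rw [hx]
  refine mul_ne_zero ?_ (Finset.prod_ne_zero_iff.2 fun j _ => pow_ne_zero _ ?_)
  · rintro rfl
    rw [abs_zero] at hη
    exact zero_ne_one hη
  · have := (hb j).1
    exact_mod_cast (by omega : b j ≠ 0)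

theorem Pt.mono {d N R R' : ℕ} {δ δ' : ℝ} {Z : ℕ} {I : Finset (Fin (d + 1))}
    {t : (Fin (d + 1) → ℤ) × ℤ × ℤ} (h : Pt d N R' δ' Z I t) (hR : R ≤ R') (hδ : δ' ≤ δ)
    (hZ : 1 ≤ Z) : Pt d N R δ Z I t := by
  have hle : (Z : ℝ) ^ δ' ≤ (Z : ℝ) ^ δ :=
    Real.rpow_le_rpow_of_exponent_le (by exact_mod_cast hZ) hδ
  obtain ⟨η, b, e, hη, hb, he, hx⟩ := h.gen
  obtain ⟨s, z, r, hs0, hs, hz, hR', hr, hw⟩ := h.pow
  exact ⟨h.supp, h.c1, h.nv, h.val, ⟨η, b, e, hη, hb, fun j => (he j).trans hle, hx⟩,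
    ⟨s, z, r, hs0, hs, hz, hR.trans hR', hr.trans hle, hw⟩,
    fun i => (h.xb i).trans (Real.exp_le_exp.2 hle)⟩

/-- the ratio of the arguments of two points in one class -/
theorem ratio (C₁ : ℕ) : ∃ C : ℕ, ∀ (d N R : ℕ) (δ : ℝ) (Z : ℕ) (I : Finset (Fin (d + 1)))
    (t t' : (Fin (d + 1) → ℤ) × ℤ × ℤ), 2 ≤ Z → Pt d N R δ Z I t → Pt d N R δ Z I t' →
    (∃ i ∈ I, ∃ j ∈ I, i < j) → Close 1 ((Z : ℝ) ^ C₁) (terms I t) (terms I t') →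
    ∃ r₁ r₂ : ℤ, r₁ ≠ 0 ∧ r₂ ≠ 0 ∧ |r₁| ≤ (Z : ℤ) ^ C ∧ |r₂| ≤ (Z : ℤ) ^ C ∧
      t.2.1 * r₂ = t'.2.1 * r₁ := by
  obtain ⟨C₂, hC₂⟩ := small_rat
  refine ⟨2 + 2 * ((C₁ + 1) * C₂), ?_⟩
  rintro d N R δ Z I t t' hZ ht ht' ⟨i, hi, j, hj, hij⟩ hcl
  have hZ1 : (1 : ℤ) ≤ (Z : ℤ) := by exact_mod_cast (by omega : 1 ≤ Z)
  obtain ⟨ki, hki⟩ := sg_surj I hi
  obtain ⟨kj, hkj⟩ := sg_surj I hj
  obtain ⟨c, c', h1, h2, h3⟩ := hcl kj ki
  have hcast : (Z : ℝ) ^ C₁ = ((Z ^ C₁ : ℕ) : ℝ) := by push_cast; rfl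
  rw [hcast] at h1 h2
  have hY1 : 1 ≤ Z ^ C₁ := Nat.one_le_pow _ _ (by omega)
  obtain ⟨p, q, hp0, hq0, hp, hq, hpq⟩ := hC₂ _ c hY1 h1
  obtain ⟨p', q', hp0', hq0', hp', hq', hpq'⟩ := hC₂ _ c' hY1 h2
  have hB : (((Z ^ C₁ : ℕ) : ℤ) + 1) ^ C₂ ≤ (Z : ℤ) ^ ((C₁ + 1) * C₂) := by
    rw [pow_mul]
    refine pow_le_pow_left₀ (by positivity) ?_ _
    push_cast
    have h4 : (1 : ℤ) ≤ (Z : ℤ) ^ C₁ := one_le_pow₀ hZ1
    have h5 : (2 : ℤ) ≤ (Z : ℤ) := by exact_mod_cast hZ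
    rw [pow_succ]
    nlinarith
  have hx0 := ht.x0
  have hx0' := ht'.x0
  have ci := (ht.supp i).1 hi
  have cj := (ht.supp j).1 hj
  have ci' := (ht'.supp i).1 hi
  have cj' := (ht'.supp j).1 hj
  have e1 : (t.1 j * t.2.1 ^ (j : ℕ)) * (t'.1 i * t'.2.1 ^ (i : ℕ)) * (p' * q) =
      (t'.1 j * t'.2.1 ^ (j : ℕ)) * (t.1 i * t.2.1 ^ (i : ℕ)) * (p * q') := by
    unfold terms at h3
    rw [hki, hkj] at h3
    have h4 : (((t.1 j * t.2.1 ^ (j : ℕ)) * (t'.1 i * t'.2.1 ^ (i : ℕ)) * (p' * q) : ℤ) : ℂ) =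
        (((t'.1 j * t'.2.1 ^ (j : ℕ)) * (t.1 i * t.2.1 ^ (i : ℕ)) * (p * q') : ℤ) : ℂ) := by
      push_cast at h3 ⊢
      rw [← hpq, ← hpq']
      linear_combination (q : ℂ) * q' * h3
    exact_mod_cast h4
  obtain ⟨m, hm⟩ : ∃ m : ℕ, (j : ℕ) = i + m := ⟨j - i, by have := Fin.lt_def.1 hij; omega⟩
  have hm0 : m ≠ 0 := by
    rintro rfl
    have := Fin.lt_def.1 hij
    omega
  obtain ⟨Pp, hPp⟩ : ∃ Pp : ℤ, Pp = t.1 j * t'.1 i * (p' * q) := ⟨_, rfl⟩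
  obtain ⟨Qz, hQz⟩ : ∃ Qz : ℤ, Qz = t'.1 j * t.1 i * (p * q') := ⟨_, rfl⟩
  have hP0 : Pp ≠ 0 := by
    rw [hPp]
    exact mul_ne_zero (mul_ne_zero cj ci') (mul_ne_zero hp0' hq0)
  have hQ0 : Qz ≠ 0 := by
    rw [hQz]
    exact mul_ne_zero (mul_ne_zero cj' ci) (mul_ne_zero hp0 hq0')
  have e2 : Pp * t.2.1 ^ m = Qz * t'.2.1 ^ m := by
    have h4 : t.2.1 ^ (i : ℕ) * t'.2.1 ^ (i : ℕ) ≠ 0 :=
      mul_ne_zero (pow_ne_zero _ hx0) (pow_ne_zero _ hx0')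
    apply mul_left_cancel₀ h4
    rw [hm, pow_add, pow_add] at e1
    rw [hPp, hQz]
    linear_combination e1
  have hbd : ∀ a b c e : ℤ, |a| ≤ (Z : ℤ) → |b| ≤ (Z : ℤ) →
      |c| ≤ (((Z ^ C₁ : ℕ) : ℤ) + 1) ^ C₂ → |e| ≤ (((Z ^ C₁ : ℕ) : ℤ) + 1) ^ C₂ →
      |a * b * (c * e)| ≤ (Z : ℤ) ^ (2 + 2 * ((C₁ + 1) * C₂)) := by
    intro a b c e ha hb hc he
    rw [abs_mul, abs_mul, abs_mul]
    calc |a| * |b| * (|c| * |e|) ≤ (Z : ℤ) * Z * ((Z : ℤ) ^ ((C₁ + 1) * C₂) *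
          (Z : ℤ) ^ ((C₁ + 1) * C₂)) := by
          refine mul_le_mul (mul_le_mul ha hb (abs_nonneg _) (by positivity))
            (mul_le_mul (hc.trans hB) (he.trans hB) (abs_nonneg _) (by positivity))
            (by positivity) (by positivity)
      _ = _ := by rw [pow_add, two_mul ((C₁ + 1) * C₂), pow_add]; ring
  have hPb : |Pp| ≤ (Z : ℤ) ^ (2 + 2 * ((C₁ + 1) * C₂)) := by
    rw [hPp]
    exact hbd _ _ _ _ (ht.c1 j) (ht'.c1 i) hp' hq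
  have hQb : |Qz| ≤ (Z : ℤ) ^ (2 + 2 * ((C₁ + 1) * C₂)) := by
    rw [hQz]
    exact hbd _ _ _ _ (ht'.c1 j) (ht.c1 i) hp hq'
  -- the quotient in lowest terms
  obtain ⟨g, hg⟩ : ∃ g : ℤ, g = Int.gcd t.2.1 t'.2.1 := ⟨_, rfl⟩
  have hg0 : g ≠ 0 := by
    rw [hg]
    intro h0
    have h1 : Int.gcd t.2.1 t'.2.1 = 0 := by exact_mod_cast h0
    exact hx0 (Int.gcd_eq_zero_iff.1 h1).1
  obtain ⟨r₁, hr₁⟩ : g ∣ t.2.1 := by rw [hg]; exact Int.gcd_dvd_left ..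
  obtain ⟨r₂, hr₂⟩ : g ∣ t'.2.1 := by rw [hg]; exact Int.gcd_dvd_right ..
  have hcop : IsCoprime r₁ r₂ := by
    have h1 : Int.gcd t.2.1 t'.2.1 = Int.natAbs g * Int.gcd r₁ r₂ := by
      conv_lhs => rw [hr₁, hr₂]
      exact Int.gcd_mul_left ..
    have h2 : Int.natAbs g = Int.gcd t.2.1 t'.2.1 := by
      rw [hg]
      simp
    rw [Int.isCoprime_iff_gcd_eq_one]
    rw [← h2] at h1
    have h3 : 0 < Int.natAbs g := Int.natAbs_pos.2 hg0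
    nlinarith [h1, h3]
  have hr10 : r₁ ≠ 0 := by
    rintro rfl
    rw [mul_zero] at hr₁
    exact hx0 hr₁
  have hr20 : r₂ ≠ 0 := by
    rintro rfl
    rw [mul_zero] at hr₂
    exact hx0' hr₂
  have e3 : Pp * r₁ ^ m = Qz * r₂ ^ m := by
    apply mul_left_cancel₀ (pow_ne_zero m hg0)
    rw [hr₁, hr₂, mul_pow, mul_pow] at e2
    linear_combination e2
  have hle : ∀ (r : ℤ) (a : ℤ), r ≠ 0 → a ≠ 0 → r ^ m ∣ a → |r| ≤ |a| := by
    intro r a hr ha hd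
    have h1 := Int.le_of_dvd (abs_pos.2 ha) ((dvd_abs _ _).2 ((abs_dvd _ _).2 hd))
    rw [abs_pow] at h1
    exact (le_self_pow₀ (Int.one_le_abs hr) hm0).trans h1
  refine ⟨r₁, r₂, hr10, hr20, (hle r₁ Qz hr10 hQ0 ?_).trans hQb, (hle r₂ Pp hr20 hP0 ?_).trans hPb,
    ?_⟩
  · exact (hcop.pow (m := m) (n := m)).dvd_of_dvd_mul_right ⟨Pp, by linear_combination -e3⟩
  · exact (hcop.symm.pow (m := m) (n := m)).dvd_of_dvd_mul_right ⟨Qz, by linear_combination e3⟩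
  · rw [hr₁, hr₂]
    ring

/-- **There are few classes.** -/
theorem cls (d N : ℕ) (I : Finset (Fin (d + 1))) (ε : ℝ) (hε : 0 < ε) :
    ∃ (R C : ℕ) (δ : ℝ), 0 < δ ∧ ∀ (R' : ℕ) (δ' : ℝ), R ≤ R' → δ' ≤ δ → ∀ Z : ℕ, 2 ≤ Z →
      (∃ i ∈ I, ∃ j ∈ I, i < j) →
      ∃ T : Finset ((Fin (d + 1) → ℤ) × ℤ × ℤ), (∀ t ∈ T, Pt d N R' δ' Z I t) ∧
        (T.card : ℝ) ≤ (Z : ℝ) ^ ε ∧ ∀ t, Pt d N R' δ' Z I t → ∃ t₀ ∈ T, ∃ r₁ r₂ : ℤ, r₁ ≠ 0 ∧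
          r₂ ≠ 0 ∧ |r₁| ≤ (Z : ℤ) ^ C ∧ |r₂| ≤ (Z : ℤ) ^ C ∧ t.2.1 * r₂ = t₀.2.1 * r₁ := by
  classical
  by_cases hI : ∃ i ∈ I, ∃ j ∈ I, i < j
  swap
  · exact ⟨0, 0, 1, one_pos, fun _ _ _ _ Z _ h => absurd h hI⟩
  have hn : 1 ≤ I.card := by
    obtain ⟨i, hi, -⟩ := hI
    exact Finset.card_pos.2 ⟨i, hi⟩
  obtain ⟨R, C₁, δ, hδ, H⟩ := rk I.card (N + I.card + 1) 1 ε hn hε
  obtain ⟨C, hC⟩ := ratio C₁
  refine ⟨R, C, δ, hδ, fun R' δ' hR' hδ' Z hZ _ => ?_⟩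
  have hZ1 : 1 ≤ Z := by omega
  have hZR : (1 : ℝ) ≤ (Z : ℝ) := by exact_mod_cast hZ1
  have hexp : (1 : ℝ) ≤ Real.exp ((Z : ℝ) ^ δ) := Real.one_le_exp (by positivity)
  have hone : Small 1 ((Z : ℝ) ^ C₁) 1 := by
    refine ⟨ℚ, inferInstance, inferInstance, algebraMap ℚ ℂ, 1, ?_, one_ne_zero, ?_, map_one _⟩
    · rw [Module.finrank_self]
    · rw [Height.mulHeight₁_one]
      exact one_le_pow₀ hZR
  have hrefl : ∀ t, Close 1 ((Z : ℝ) ^ C₁) (terms I t) (terms I t) :=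
    fun t i i' => ⟨1, 1, hone, hone, by ring⟩
  obtain ⟨T, hT1, hT2, hT3⟩ := max_sep {t | Pt d N R' δ' Z I t}
    (fun t t' => Close 1 ((Z : ℝ) ^ C₁) (terms I t) (terms I t')) hrefl
    (fun t t' h i i' => by
      obtain ⟨c, c', h1, h2, h3⟩ := h i i'
      exact ⟨c', c, h2, h1, h3.symm⟩) ((Z : ℝ) ^ ε) (fun T h1 h2 => by
      have hinj : Set.InjOn (terms I) (T : Set ((Fin (d + 1) → ℤ) × ℤ × ℤ)) := by
        intro t ht t' ht' heq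
        by_contra hne
        refine h2 t (Finset.mem_coe.1 ht) t' (Finset.mem_coe.1 ht') hne ?_
        rw [heq]
        exact hrefl t'
      rw [← Finset.card_image_of_injOn hinj]
      refine H Z hZ1 (fun _ => 1) 1 (fun i => ⟨one_ne_zero, by simpa using hexp⟩)
        (by simpa using hexp) _ (fun a ha => ?_) (fun a ha a' ha' hne => ?_)
      · obtain ⟨t, ht, rfl⟩ := Finset.mem_image.1 ha
        exact ((h1 t ht).mono hR' hδ' hZ1).sol hZ1 hδ.le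
      · obtain ⟨t, ht, rfl⟩ := Finset.mem_image.1 ha
        obtain ⟨t', ht', rfl⟩ := Finset.mem_image.1 ha'
        exact h2 t ht t' ht' fun h => hne (by rw [h]))
  refine ⟨T, hT1, hT2, fun t ht => ?_⟩
  obtain ⟨t₀, ht₀, h⟩ := hT3 t ht
  exact ⟨t₀, ht₀, hC d N R' δ' Z I t t₀ hZ ht (hT1 t₀ ht₀) hI h⟩

end Pool.Agent.N741.UN
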