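import Mathlib
import Pool.Agent.N741.UN.Cnt

/-!
# Polynomials `a z ^ d + g(z) + c` over all number fields of bounded degree: preperiodic points
-/

set_option autoImplicit false

namespace Pool.Agent.N741.UN

open Height Pool.Agent.N741.HK Pool.Agent.Y902.GN

section
variable {K : Type} [Field K] [NumberField K]

/-- the height of a sum and a difference -/
theorem ht_sub (x y : K) : mulHeight₁ (x - y) ≤
    2 ^ Module.finrank ℚ K * mulHeight₁ x * mulHeight₁ y := by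
  rw [← NumberField.totalWeight_eq_finrank]
  exact mulHeight₁_sub_le x y

theorem ht_add (x y : K) : mulHeight₁ (x + y) ≤
    2 ^ Module.finrank ℚ K * mulHeight₁ x * mulHeight₁ y := by
  rw [← NumberField.totalWeight_eq_finrank]
  exact mulHeight₁_add_le x y

/-- the height of the value of a polynomial -/
theorem ht_eval {k : ℕ} {g : Polynomial K} (hk : g.natDegree ≤ k) {A : ℝ}
    (hA : ∀ i, mulHeight₁ (g.coeff i) ≤ A) (x : K) :
    mulHeight₁ (g.eval x) ≤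
      ((k : ℝ) + 1) ^ Module.finrank ℚ K * A ^ (k + 1) * mulHeight₁ x ^ ((k + 1) ^ 2) := by
  have hx1 : 1 ≤ mulHeight₁ x := one_le_mulHeight₁ x
  have hA0 : 0 ≤ A := (mulHeight₁_nonneg _).trans (hA 0)
  rw [Polynomial.eval_eq_sum_range' (Nat.lt_succ_of_le hk)]
  have h1 := mulHeight₁_sum_le (s := Finset.range (k + 1)) ⟨0, by simp⟩
    (fun i => g.coeff i * x ^ i)
  rw [NumberField.totalWeight_eq_finrank, Finset.card_range] at h1
  push_cast at h1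
  refine h1.trans ?_
  rw [mul_assoc]
  refine mul_le_mul_of_nonneg_left ?_ (by positivity)
  calc ∏ i ∈ Finset.range (k + 1), mulHeight₁ (g.coeff i * x ^ i)
      ≤ ∏ _i ∈ Finset.range (k + 1), (A * mulHeight₁ x ^ (k + 1)) := by
        refine Finset.prod_le_prod (fun i _ => mulHeight₁_nonneg _) fun i hi => ?_
        refine (mulHeight₁_mul_le _ _).trans (mul_le_mul (hA i) ?_ (mulHeight₁_nonneg _) hA0)
        rw [mulHeight₁_pow]
        exact pow_le_pow_right₀ hx1 (by have := Finset.mem_range.1 hi; omega)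
    _ = A ^ (k + 1) * mulHeight₁ x ^ ((k + 1) ^ 2) := by
        rw [Finset.prod_const, Finset.card_range, mul_pow, ← pow_mul]
        congr 2
        ring

/-- a finite set which is invariant under `w ↦ a w ^ d + g(w) + c` -/
structure InvP (κ R : ℕ) (δ : ℝ) (Y k E d : ℕ) {K : Type} [Field K] [NumberField K] (a c : K)
    (g : Polynomial K) (S : Set K) : Prop where
  fin : S.Finite
  inv : ∀ w ∈ S, a * w ^ d + g.eval w + c ∈ S
  a0 : a ≠ 0
  dR : R ≤ d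
  dδ : (d : ℝ) ≤ (Y : ℝ) ^ δ
  deg : Module.finrank ℚ K ≤ κ
  gk : g.natDegree ≤ k
  ha : mulHeight₁ a ≤ ((Y : ℝ) ^ E) ^ Module.finrank ℚ K
  hg : ∀ i, mulHeight₁ (g.coeff i) ≤ ((Y : ℝ) ^ E) ^ Module.finrank ℚ K
  hc : mulHeight₁ c ≤ ((Y : ℝ) ^ d) ^ Module.finrank ℚ K
  d1 : 2 * ((k + 1) ^ 2 + 1) ≤ d
  d2 : E * (k + 2) ≤ d

variable {κ R : ℕ} {δ : ℝ} {Y k E d Z : ℕ} {a c : K} {g : Polynomial K} {S : Set K}

/-- the heights of the preperiodic points -/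
theorem InvP.ht (h : InvP κ R δ Y k E d a c g S) (hY : 1 ≤ Y) {x : K} (hx : x ∈ S) :
    mulHeight₁ x ≤ ((8 * ((k : ℝ) + 1) * Y) ^ 4) ^ Module.finrank ℚ K := by
  obtain ⟨N, hN⟩ : ∃ N, N = Module.finrank ℚ K := ⟨_, rfl⟩
  have hY1 : (1 : ℝ) ≤ (Y : ℝ) := by exact_mod_cast hY
  obtain ⟨m, hm, hmax⟩ := Set.exists_max_image S (fun w : K => mulHeight₁ w) h.fin ⟨x, hx⟩
  refine (hmax x hx).trans ?_
  have hm1 : 1 ≤ mulHeight₁ m := one_le_mulHeight₁ m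
  have e1 : m ^ d = (a * m ^ d + g.eval m + c - g.eval m - c) * a⁻¹ := by
    have := h.a0
    field_simp
    ring
  have h1 : mulHeight₁ m ^ d ≤ 4 ^ N * mulHeight₁ m * mulHeight₁ (g.eval m) * mulHeight₁ c *
      mulHeight₁ a := by
    rw [← mulHeight₁_pow, e1]
    refine (mulHeight₁_mul_le _ _).trans ?_
    rw [mulHeight₁_inv]
    refine mul_le_mul_of_nonneg_right ?_ (mulHeight₁_nonneg _)
    refine (ht_sub _ _).trans ?_
    refine mul_le_mul_of_nonneg_right ?_ (mulHeight₁_nonneg _)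
    rw [← hN]
    calc (2 : ℝ) ^ N * mulHeight₁ (a * m ^ d + g.eval m + c - g.eval m)
        ≤ 2 ^ N * (2 ^ N * mulHeight₁ (a * m ^ d + g.eval m + c) * mulHeight₁ (g.eval m)) := by
          rw [hN]
          exact mul_le_mul_of_nonneg_left (ht_sub _ _) (by positivity)
      _ ≤ 2 ^ N * (2 ^ N * mulHeight₁ m * mulHeight₁ (g.eval m)) := by
          refine mul_le_mul_of_nonneg_left (mul_le_mul_of_nonneg_right
            (mul_le_mul_of_nonneg_left (hmax _ (h.inv m hm)) (by positivity))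
            (mulHeight₁_nonneg _)) (by positivity)
      _ = 4 ^ N * mulHeight₁ m * mulHeight₁ (g.eval m) := by
          rw [show (4 : ℝ) = 2 * 2 by norm_num, mul_pow]
          ring
  have h2 := ht_eval h.gk h.hg m
  rw [← hN] at h2
  have ha := h.ha
  have hc := h.hc
  rw [← hN] at ha hc ⊢
  obtain ⟨q, hq⟩ : ∃ q, q = (k + 1) ^ 2 + 1 := ⟨_, rfl⟩
  have hd1 : 2 * q ≤ d := by rw [hq]; exact h.d1
  -- `H(m)^(d-q) ≤ (4 (k+1) Y^(2d))^N`
  have h3 : mulHeight₁ m ^ (d - q) ≤ (4 * ((k : ℝ) + 1) * (Y : ℝ) ^ (2 * d)) ^ N := by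
    have h4 : mulHeight₁ m ^ (d - q) * mulHeight₁ m ^ q ≤
        (4 * ((k : ℝ) + 1) * (Y : ℝ) ^ (2 * d)) ^ N * mulHeight₁ m ^ q := by
      rw [← pow_add, show d - q + q = d by omega]
      calc mulHeight₁ m ^ d ≤ 4 ^ N * mulHeight₁ m * mulHeight₁ (g.eval m) * mulHeight₁ c *
            mulHeight₁ a := h1
        _ ≤ 4 ^ N * mulHeight₁ m * (((k : ℝ) + 1) ^ N * (((Y : ℝ) ^ E) ^ N) ^ (k + 1) *
            mulHeight₁ m ^ ((k + 1) ^ 2)) * ((Y : ℝ) ^ d) ^ N * ((Y : ℝ) ^ E) ^ N := by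
            gcongr
        _ = (4 ^ N * ((k : ℝ) + 1) ^ N * (((Y : ℝ) ^ (E * (k + 2))) * (Y : ℝ) ^ d) ^ N) *
            mulHeight₁ m ^ q := by
            rw [hq, mul_pow ((Y : ℝ) ^ (E * (k + 2))), ← pow_mul (Y : ℝ) (E * (k + 2)),
              ← pow_mul (Y : ℝ) E N, ← pow_mul (Y : ℝ) (E * N) (k + 1),
              show E * (k + 2) * N = E * N * (k + 1) + E * N by ring, pow_add (Y : ℝ) (E * N * (k + 1))]
            ring
        _ ≤ (4 * ((k : ℝ) + 1) * (Y : ℝ) ^ (2 * d)) ^ N * mulHeight₁ m ^ q := by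
            refine mul_le_mul_of_nonneg_right ?_ (by positivity)
            rw [← mul_pow, ← mul_pow]
            refine pow_le_pow_left₀ (by positivity) ?_ N
            refine mul_le_mul_of_nonneg_left ?_ (by positivity)
            rw [← pow_add]
            exact pow_le_pow_right₀ hY1 (by have := h.d2; omega)
    exact le_of_mul_le_mul_right h4 (by positivity)
  have hd0 : d ≠ 0 := by omega
  refine le_of_pow_le_pow_left₀ hd0 (by positivity) ?_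
  calc mulHeight₁ m ^ d ≤ mulHeight₁ m ^ ((d - q) * 2) := pow_le_pow_right₀ hm1 (by omega)
    _ = (mulHeight₁ m ^ (d - q)) ^ 2 := by rw [pow_mul]
    _ ≤ ((4 * ((k : ℝ) + 1) * (Y : ℝ) ^ (2 * d)) ^ N) ^ 2 :=
        pow_le_pow_left₀ (by positivity) h3 2
    _ = ((4 * ((k : ℝ) + 1)) ^ 2 * ((Y : ℝ) ^ 4) ^ d) ^ N := by
        rw [← pow_mul, mul_comm N 2, pow_mul, mul_pow, ← pow_mul (Y : ℝ), ← pow_mul (Y : ℝ)]
        congr 3
        ring
    _ ≤ ((8 * ((k : ℝ) + 1)) ^ (4 * d) * ((Y : ℝ) ^ 4) ^ d) ^ N := by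
        refine pow_le_pow_left₀ (by positivity) (mul_le_mul_of_nonneg_right ?_ (by positivity)) N
        have hk0 : (0 : ℝ) ≤ k := Nat.cast_nonneg _
        calc (4 * ((k : ℝ) + 1)) ^ 2 ≤ (8 * ((k : ℝ) + 1)) ^ 2 :=
              pow_le_pow_left₀ (by positivity) (by linarith) 2
          _ ≤ (8 * ((k : ℝ) + 1)) ^ (4 * d) := pow_le_pow_right₀ (by linarith) (by omega)
    _ = (((8 * ((k : ℝ) + 1) * Y) ^ 4) ^ N) ^ d := by
        rw [mul_pow (8 * ((k : ℝ) + 1)) (Y : ℝ) 4, ← pow_mul _ N d, mul_comm N d, pow_mul _ d N,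
          mul_pow ((8 * ((k : ℝ) + 1)) ^ 4) ((Y : ℝ) ^ 4) d, ← pow_mul (8 * ((k : ℝ) + 1)) 4 d]

/-- the exponent -/
def ex1 (k E : ℕ) : ℕ := E + 9 + 2 * (1 + E * (k + 1) + 4 * (k + 1) ^ 2)

/-- the heights of the differences of the `d`-th powers -/
theorem InvP.ht2 (h : InvP κ R δ Y k E d a c g S) (hY : 1 ≤ Y) {x y : K} (hx : x ∈ S)
    (hy : y ∈ S) : mulHeight₁ (x ^ d - y ^ d) ≤
      ((8 * ((k : ℝ) + 1) * Y) ^ ex1 k E) ^ Module.finrank ℚ K := by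
  obtain ⟨N, hN⟩ : ∃ N, N = Module.finrank ℚ K := ⟨_, rfl⟩
  have hY1 : (1 : ℝ) ≤ (Y : ℝ) := by exact_mod_cast hY
  have hk0 : (0 : ℝ) ≤ k := Nat.cast_nonneg _
  obtain ⟨D, hD⟩ : ∃ D : ℝ, D = 8 * ((k : ℝ) + 1) * Y := ⟨_, rfl⟩
  have hD8 : 8 * ((k : ℝ) + 1) ≤ D := by rw [hD]; nlinarith
  have hDk : (k : ℝ) + 1 ≤ D := by linarith
  have hD88 : 8 ≤ D := by linarith
  have hDY : (Y : ℝ) ≤ D := by rw [hD]; nlinarith
  have hD1 : 1 ≤ D := by linarith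
  have hev : ∀ w ∈ S, mulHeight₁ (g.eval w) ≤ (D ^ (1 + E * (k + 1) + 4 * (k + 1) ^ 2)) ^ N := by
    intro w hw
    have h1 := ht_eval h.gk h.hg w
    have h2 := h.ht hY hw
    rw [← hN, ← hD] at h2
    rw [← hN] at h1
    refine h1.trans ?_
    calc ((k : ℝ) + 1) ^ N * (((Y : ℝ) ^ E) ^ N) ^ (k + 1) * mulHeight₁ w ^ ((k + 1) ^ 2)
        ≤ D ^ N * ((D ^ E) ^ N) ^ (k + 1) * ((D ^ 4) ^ N) ^ ((k + 1) ^ 2) := by
          gcongr
      _ = (D ^ (1 + E * (k + 1) + 4 * (k + 1) ^ 2)) ^ N := by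
          simp only [← pow_mul, ← pow_add]
          congr 1
          ring
  have e1 : x ^ d - y ^ d = ((a * x ^ d + g.eval x + c - g.eval x) -
      (a * y ^ d + g.eval y + c - g.eval y)) * a⁻¹ := by
    have := h.a0
    field_simp
    ring
  rw [e1, ← hN, ← hD]
  have ha : mulHeight₁ a ≤ (D ^ E) ^ N := by
    have := h.ha
    rw [← hN] at this
    exact this.trans (pow_le_pow_left₀ (by positivity) (pow_le_pow_left₀ (by positivity) hDY _) _)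
  have hp : ∀ w ∈ S, mulHeight₁ (a * w ^ d + g.eval w + c - g.eval w) ≤
      2 ^ N * (D ^ 4) ^ N * (D ^ (1 + E * (k + 1) + 4 * (k + 1) ^ 2)) ^ N := by
    intro w hw
    have h1 := ht_sub (a * w ^ d + g.eval w + c) (g.eval w)
    have h2 := h.ht hY (h.inv w hw)
    have h3 := hev w hw
    rw [← hN, ← hD] at h2
    rw [← hN] at h1
    refine h1.trans ?_
    gcongr
  refine (mulHeight₁_mul_le _ _).trans ?_
  rw [mulHeight₁_inv]
  have h1 := ht_sub (a * x ^ d + g.eval x + c - g.eval x) (a * y ^ d + g.eval y + c - g.eval y)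
  rw [← hN] at h1
  have h2 := hp x hx
  have h3 := hp y hy
  have h8 : (8 : ℝ) ^ N ≤ D ^ N := pow_le_pow_left₀ (by norm_num) hD88 N
  calc _ ≤ (2 ^ N * (2 ^ N * (D ^ 4) ^ N * (D ^ (1 + E * (k + 1) + 4 * (k + 1) ^ 2)) ^ N) *
        (2 ^ N * (D ^ 4) ^ N * (D ^ (1 + E * (k + 1) + 4 * (k + 1) ^ 2)) ^ N)) * (D ^ E) ^ N := by
        refine mul_le_mul (h1.trans ?_) ha (mulHeight₁_nonneg _) (by positivity)
        gcongr
    _ = 8 ^ N * (D ^ (E + 8 + 2 * (1 + E * (k + 1) + 4 * (k + 1) ^ 2))) ^ N := by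
        rw [show (8 : ℝ) = 2 * 2 * 2 by norm_num, mul_pow, mul_pow]
        simp only [← pow_mul]
        rw [show (E + 8 + 2 * (1 + E * (k + 1) + 4 * (k + 1) ^ 2)) * N =
          E * N + (4 * N) + (4 * N) + (1 + E * (k + 1) + 4 * (k + 1) ^ 2) * N +
            (1 + E * (k + 1) + 4 * (k + 1) ^ 2) * N by ring]
        simp only [pow_add]
        ring
    _ ≤ D ^ N * (D ^ (E + 8 + 2 * (1 + E * (k + 1) + 4 * (k + 1) ^ 2))) ^ N :=
        mul_le_mul_of_nonneg_right h8 (by positivity)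
    _ = (D ^ ex1 k E) ^ N := by
        rw [← mul_pow, ← pow_succ']
        unfold ex1
        congr 2
        ring

/-- the bound `Z` -/
theorem InvP.leZ (h : InvP κ R δ Y k E d a c g S) (hY : 1 ≤ Y)
    (hZ : Z = (8 * (k + 1) * Y) ^ ((ex1 k E + 1) * κ)) {m : ℕ} (hm : m ≤ ex1 k E + 1) :
    ((8 * ((k : ℝ) + 1) * Y) ^ m) ^ Module.finrank ℚ K ≤ (Z : ℝ) := by
  have hY1 : (1 : ℝ) ≤ (Y : ℝ) := by exact_mod_cast hY
  have hk0 : (0 : ℝ) ≤ k := Nat.cast_nonneg _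
  have hD1 : (1 : ℝ) ≤ 8 * ((k : ℝ) + 1) * Y := by nlinarith
  rw [hZ, ← pow_mul]
  push_cast
  exact pow_le_pow_right₀ hD1 (Nat.mul_le_mul hm h.deg)

theorem InvP.ratio (h : InvP κ R δ Y k E d a c g S) (hY : 1 ≤ Y) (hδ : 0 ≤ δ) (hκ : 1 ≤ κ)
    (hZ : Z = (8 * (k + 1) * Y) ^ ((ex1 k E + 1) * κ)) (σ : K →+* ℂ) {x y : K} (hx : x ∈ S)
    (hy : y ∈ S) (hx0 : x ≠ 0) (hy0 : y ≠ 0) (hxy : x ^ d ≠ y ^ d) :
    σ (x / y) ∈ Rat κ R δ Z := by
  have hZ1 : 1 ≤ Z := by rw [hZ]; exact Nat.one_le_pow _ _ (by positivity)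
  have hZR : (1 : ℝ) ≤ (Z : ℝ) := by exact_mod_cast hZ1
  have hYZ : (Y : ℝ) ≤ (Z : ℝ) := by
    have h1 : Y ≤ Z := by
      rw [hZ]
      calc Y ≤ 8 * (k + 1) * Y := Nat.le_mul_of_pos_left _ (by positivity)
        _ ≤ _ := Nat.le_self_pow (by positivity) _
    exact_mod_cast h1
  have h4 : 4 ≤ ex1 k E + 1 := by unfold ex1; omega
  refine mem_rat (d := d) h.dR (h.dδ.trans (Real.rpow_le_rpow (by positivity) hYZ hδ))
    hZ1 hδ σ h.deg (s1 := 1) (s2 := -1) (s0 := x ^ d - y ^ d) hx0 hy0 one_ne_zero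
    (neg_ne_zero.2 one_ne_zero) (sub_ne_zero.2 hxy) ((h.ht hY hx).trans (h.leZ hY hZ h4))
    ((h.ht hY hy).trans (h.leZ hY hZ h4)) ?_ ?_ ((h.ht2 hY hx hy).trans (h.leZ hY hZ (by omega)))
    (by ring)
  · rw [mulHeight₁_one]; exact hZR
  · rw [mulHeight₁_neg, mulHeight₁_one]; exact hZR

theorem InvP.value (h : InvP κ R δ Y k E d a c g S) (hY : 1 ≤ Y) (hδ : 0 ≤ δ) (hκ : 1 ≤ κ)
    (hZ : Z = (8 * (k + 1) * Y) ^ ((ex1 k E + 1) * κ)) (σ : K →+* ℂ) (h0 : (0 : K) ∈ S) {x : K}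
    (hx : x ∈ S) (hx0 : x ≠ 0) : σ x ∈ Rat κ R δ Z := by
  have hZ1 : 1 ≤ Z := by rw [hZ]; exact Nat.one_le_pow _ _ (by positivity)
  have hZR : (1 : ℝ) ≤ (Z : ℝ) := by exact_mod_cast hZ1
  have hY1 : (1 : ℝ) ≤ (Y : ℝ) := by exact_mod_cast hY
  have hk0 : (0 : ℝ) ≤ k := Nat.cast_nonneg _
  have hYZ : (Y : ℝ) ≤ (Z : ℝ) := by
    have h1 : Y ≤ Z := by
      rw [hZ]
      calc Y ≤ 8 * (k + 1) * Y := Nat.le_mul_of_pos_left _ (by positivity)
        _ ≤ _ := Nat.le_self_pow (by positivity) _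
    exact_mod_cast h1
  have h4 : 4 ≤ ex1 k E + 1 := by unfold ex1; omega
  have hd0 : d ≠ 0 := by have := h.d1; omega
  obtain ⟨N, hN⟩ : ∃ N, N = Module.finrank ℚ K := ⟨_, rfl⟩
  obtain ⟨D, hD⟩ : ∃ D : ℝ, D = 8 * ((k : ℝ) + 1) * Y := ⟨_, rfl⟩
  have hD8 : 8 ≤ D := by rw [hD]; nlinarith
  have hpow : mulHeight₁ (x ^ d) ≤ (D ^ ex1 k E) ^ N := by
    have := h.ht2 hY hx h0
    rwa [zero_pow hd0, sub_zero, ← hN, ← hD] at this
  have hle : (D ^ (ex1 k E + 1)) ^ N ≤ (Z : ℝ) := by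
    rw [hD, hN]
    exact h.leZ hY hZ le_rfl
  have hH2 : mulHeight₁ (1 + 1 : K) ≤ 2 ^ N := by
    have := ht_add (1 : K) 1
    rw [mulHeight₁_one, ← hN] at this
    simpa using this
  have hsum : ∀ s2 : K, mulHeight₁ s2 ≤ 2 ^ N → mulHeight₁ (x ^ d + s2) ≤ (Z : ℝ) := by
    intro s2 hs2
    have h1 := ht_add (x ^ d) s2
    rw [← hN] at h1
    refine h1.trans (le_trans ?_ hle)
    calc 2 ^ N * mulHeight₁ (x ^ d) * mulHeight₁ s2 ≤ 2 ^ N * (D ^ ex1 k E) ^ N * 2 ^ N := by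
          refine mul_le_mul (mul_le_mul_of_nonneg_left hpow (by positivity)) hs2
            (mulHeight₁_nonneg _) (by positivity)
      _ = 4 ^ N * (D ^ ex1 k E) ^ N := by
          rw [show (4 : ℝ) = 2 * 2 by norm_num, mul_pow]; ring
      _ ≤ D ^ N * (D ^ ex1 k E) ^ N := by
          refine mul_le_mul_of_nonneg_right (pow_le_pow_left₀ (by norm_num) (by linarith) N)
            (by positivity)
      _ = (D ^ (ex1 k E + 1)) ^ N := by rw [← mul_pow, ← pow_succ']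
  have h2Z : (2 : ℝ) ^ N ≤ (Z : ℝ) := by
    refine le_trans (pow_le_pow_left₀ (by norm_num) ?_ N) hle
    calc (2 : ℝ) ≤ D := by linarith
      _ ≤ D ^ (ex1 k E + 1) := le_self_pow₀ (by linarith) (by omega)
  have hone : (1 : ℝ) ≤ 2 ^ N := one_le_pow₀ (by norm_num)
  obtain ⟨s2, hs2, hs20, hs0⟩ : ∃ s2 : K, mulHeight₁ s2 ≤ 2 ^ N ∧ s2 ≠ 0 ∧ x ^ d + s2 ≠ 0 := by
    by_cases h3 : x ^ d + 1 = 0
    · refine ⟨1 + 1, hH2, by norm_num, ?_⟩
      rw [← add_assoc, h3, zero_add]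
      exact one_ne_zero
    · exact ⟨1, by rw [mulHeight₁_one]; exact hone, one_ne_zero, h3⟩
  rw [show x = x / 1 from (div_one x).symm]
  refine mem_rat (d := d) h.dR (h.dδ.trans (Real.rpow_le_rpow (by positivity) hYZ hδ))
    hZ1 hδ σ h.deg (s1 := 1) (s2 := s2) (s0 := x ^ d + s2) hx0 one_ne_zero one_ne_zero hs20 hs0
    ((h.ht hY hx).trans (h.leZ hY hZ h4)) ?_ ?_ (hs2.trans h2Z) (hsum s2 hs2)
    (by rw [one_mul, one_pow, mul_one])
  · rw [mulHeight₁_one]; exact hZR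
  · rw [mulHeight₁_one]; exact hZR

end

end Pool.Agent.N741.UN
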