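import Mathlib
import Pool.Agent.N741.UN.Cnt

/-!
# Vanishing sums of six powers over all number fields of bounded degree
-/

set_option autoImplicit false

namespace Pool.Agent.N741.UN

open Height Pool.Agent.N741.HK Pool.Agent.Y902.GN

/-- the ratios of the coordinates of the solutions of the equations in `n` terms -/
def RatN (P n κ R : ℕ) (δ : ℝ) (Z : ℕ) : Set ℂ :=
  {q | ∃ β : Fin n → ℂ, SolF P κ R δ Z (fun _ => (1 : ℤ)) 1 β ∧ ∃ i j, q = β i / β j}

theorem solF_mono {P κ R R' n : ℕ} {δ δ' : ℝ} {Y : ℕ} {u : Fin n → ℤ} {v : ℤ} {β : Fin n → ℂ}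
    (h : SolF P κ R' δ' Y u v β) (hR : R ≤ R') (hδ : δ' ≤ δ) (hY : 1 ≤ Y) :
    SolF P κ R δ Y u v β := by
  obtain ⟨K, i1, i2, σ, y, s, s0, z, f, e₀, d, r, h1, h2, h3, h4, h5, h6, h7, h8, h9, h10, h11,
    h12, h13⟩ := h
  have hY1 : (1 : ℝ) ≤ (Y : ℝ) := by exact_mod_cast hY
  have hle : (Y : ℝ) ^ δ' ≤ (Y : ℝ) ^ δ := Real.rpow_le_rpow_of_exponent_le hY1 hδ
  exact ⟨K, i1, i2, σ, y, s, s0, z, f, e₀, d, r, h1, hR.trans h2, h3.trans hle, hR.trans h4,
    h5.trans hle, fun i j => (h6 i j).trans hle, fun j => (h7 j).trans hle, h8, h9, h10, h11, h12,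
    h13⟩

theorem RatN.mono {P n κ R R' : ℕ} {δ δ' : ℝ} {Z : ℕ} (hR : R ≤ R') (hδ : δ' ≤ δ) (hZ : 1 ≤ Z) :
    RatN P n κ R' δ' Z ⊆ RatN P n κ R δ Z := by
  rintro q ⟨β, h, i, j, hq⟩
  exact ⟨β, solF_mono h hR hδ hZ, i, j, hq⟩

/-- **There are few ratios.** -/
theorem ratN_card (P n κ : ℕ) (hn : 1 ≤ n) (ε : ℝ) (hε : 0 < ε) : ∃ (R : ℕ) (δ : ℝ), 0 < δ ∧
    ∀ Z : ℕ, 1 ≤ Z → (RatN P n κ R δ Z).Finite ∧
      ((RatN P n κ R δ Z).ncard : ℝ) ≤ (n : ℝ) ^ 2 * (Z : ℝ) ^ ε := by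
  classical
  have hne : Nonempty (Fin n) := ⟨⟨0, hn⟩⟩
  obtain ⟨R, δ, hδ, H⟩ := rk2 n P κ ε hn hε
  refine ⟨R, δ, hδ, fun Z hZ => fin_of_bound _ _ fun T hT => ?_⟩
  have hexp : (1 : ℝ) ≤ Real.exp ((Z : ℝ) ^ δ) := Real.one_le_exp (by positivity)
  choose! β hβ i j hq using hT
  have h1 : T ⊆ (Finset.univ : Finset (Fin n × Fin n)).biUnion fun p =>
      T.filter fun q => i q = p.1 ∧ j q = p.2 := by
    intro q hq'
    rw [Finset.mem_biUnion]
    exact ⟨(i q, j q), Finset.mem_univ _, Finset.mem_filter.2 ⟨hq', rfl, rfl⟩⟩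
  have h2 : ∀ p : Fin n × Fin n,
      ((T.filter fun q => i q = p.1 ∧ j q = p.2).card : ℝ) ≤ (Z : ℝ) ^ ε := by
    intro p
    have key := H Z hZ (fun _ => (1 : ℤ)) 1 (fun i => ⟨one_ne_zero, by simpa using hexp⟩)
      (by simpa using hexp) ((T.filter fun q => i q = p.1 ∧ j q = p.2).image β)
      (fun b hb => ?_) (fun b hb b' hb' hh => ?_)
    · rwa [Finset.card_image_of_injOn (fun q hqT q' hqT' hh => ?_)] at key
      obtain ⟨a1, a2, a3⟩ := Finset.mem_filter.1 hqT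
      obtain ⟨b1, b2, b3⟩ := Finset.mem_filter.1 hqT'
      rw [hq q a1, hq q' b1, a2, a3, b2, b3, hh]
    · obtain ⟨q, hqT, rfl⟩ := Finset.mem_image.1 hb
      exact hβ q (Finset.mem_filter.1 hqT).1
    · obtain ⟨q, hqT, rfl⟩ := Finset.mem_image.1 hb
      obtain ⟨q', hqT', rfl⟩ := Finset.mem_image.1 hb'
      obtain ⟨a1, a2, a3⟩ := Finset.mem_filter.1 hqT
      obtain ⟨b1, b2, b3⟩ := Finset.mem_filter.1 hqT'
      have h1 : q = q' := by
        rw [hq q a1, hq q' b1, a2, a3, b2, b3,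
          div_eq_div_iff (solF_ne (hβ q a1) p.2) (solF_ne (hβ q' b1) p.2)]
        have := hh p.1 p.2
        linear_combination this
      rw [h1]
  have h3 : (T.card : ℝ) ≤ ∑ p : Fin n × Fin n,
      ((T.filter fun q => i q = p.1 ∧ j q = p.2).card : ℝ) := by
    exact_mod_cast (Finset.card_le_card h1).trans Finset.card_biUnion_le
  refine h3.trans ((Finset.sum_le_sum fun p _ => h2 p).trans (le_of_eq ?_))
  rw [Finset.sum_const, Finset.card_univ, Fintype.card_prod, Fintype.card_fin, nsmul_eq_mul]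
  push_cast
  ring

theorem split {K : Type} [Field K] {P : ℕ} (y : Fin P → K) (f : Fin P → ℤ) :
    ∏ q : Fin (P + P), (Fin.append y (fun j => (y j)⁻¹) q) ^
      (Fin.append (fun j => (f j).toNat) (fun j => (-f j).toNat) : Fin (P + P) → ℕ) q =
      ∏ j, y j ^ f j := by
  rw [Fin.prod_univ_add, ← Finset.prod_mul_distrib]
  refine Finset.prod_congr rfl fun j _ => ?_
  rw [Fin.append_left, Fin.append_left, Fin.append_right, Fin.append_right]
  rcases le_total 0 (f j) with h | h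
  · have h1 : (-f j).toNat = 0 := Int.toNat_eq_zero.2 (by omega)
    rw [h1, pow_zero, mul_one, ← zpow_natCast, Int.toNat_of_nonneg h]
  · have h1 : (f j).toNat = 0 := Int.toNat_eq_zero.2 h
    rw [h1, pow_zero, one_mul, inv_pow, ← zpow_natCast, Int.toNat_of_nonneg (by omega), zpow_neg,
      inv_inv]

theorem toNat_le {a : ℤ} {B : ℝ} (h : |(a : ℝ)| ≤ B) : ((a.toNat : ℕ) : ℝ) ≤ B ∧
    (((-a).toNat : ℕ) : ℝ) ≤ B := by
  have hB : 0 ≤ B := (abs_nonneg _).trans h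
  rw [abs_le] at h
  constructor
  · rcases le_total 0 a with h1 | h1
    · have h2 : ((a.toNat : ℕ) : ℝ) = a := by exact_mod_cast Int.toNat_of_nonneg h1
      rw [h2]
      exact h.2
    · rw [Int.toNat_eq_zero.2 h1]
      simpa using hB
  · rcases le_total 0 a with h1 | h1
    · rw [Int.toNat_eq_zero.2 (by omega : -a ≤ 0)]
      simpa using hB
    · have h2 : (((-a).toNat : ℕ) : ℝ) = ((-a : ℤ) : ℝ) := by
        exact_mod_cast Int.toNat_of_nonneg (by omega : 0 ≤ -a)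
      rw [h2]
      push_cast
      linarith [h.1]

theorem append_le {P : ℕ} {f : Fin P → ℤ} {B : ℝ} (h : ∀ j, |(f j : ℝ)| ≤ B) (q : Fin (P + P)) :
    (((Fin.append (fun j => (f j).toNat) (fun j => (-f j).toNat) : Fin (P + P) → ℕ) q : ℕ) : ℝ)
      ≤ B := by
  refine Fin.addCases (fun j => ?_) (fun j => ?_) q
  · rw [Fin.append_left]
    exact (toNat_le (h j)).1
  · rw [Fin.append_right]
    exact (toNat_le (h j)).2

/-- the ratios in a minimal vanishing sum of powers -/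
theorem block {ι : Type} {P κ R g Z : ℕ} {δ : ℝ} (hR : R ≤ g)
    (hg : (g : ℝ) ≤ (Z : ℝ) ^ δ) (hZ : 1 ≤ Z) {K : Type} [Field K] [NumberField K]
    (σ : K →+* ℂ) (hκ : Module.finrank ℚ K ≤ κ) (y : Fin P → K)
    (hy : ∀ j, y j ≠ 0 ∧ mulHeight₁ (y j) ≤ (Z : ℝ)) (F : ι → Fin P → ℤ)
    (hF : ∀ i j, |(F i j : ℝ)| ≤ (Z : ℝ) ^ δ) (s : ι → K) (hs : ∀ i, s i = 1 ∨ s i = -1)
    (W : ι → K) (hW : ∀ i, W i = ∏ j, y j ^ F i j) (C : Finset ι)
    (h0 : ∑ i ∈ C, s i * W i ^ g = 0)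
    (hmin : ∀ J ⊆ C, J.Nonempty → ∑ i ∈ J, s i * W i ^ g = 0 → J = C)
    {i j : ι} (hi : i ∈ C) (hj : j ∈ C) : (σ (W i / W j)) ^ (2 * g) = 1 ∨
      ∃ n : ℕ, 1 ≤ n ∧ n + 1 ≤ C.card ∧ σ (W i / W j) ∈ RatN (P + P) n κ R δ Z := by
  classical
  have hZ1 : (1 : ℝ) ≤ (Z : ℝ) := by exact_mod_cast hZ
  have hW0 : ∀ i, W i ≠ 0 := by
    intro i
    rw [hW]
    exact Finset.prod_ne_zero_iff.2 fun j _ => zpow_ne_zero _ (hy j).1
  have hsq : ∀ i, s i ^ 2 = 1 := by
    intro i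
    rcases hs i with h | h <;> rw [h] <;> ring
  have hs0 : ∀ i, s i ≠ 0 := by
    intro i h
    have := hsq i
    rw [h] at this
    simp at this
  have hone : ∀ a : K, a = 1 ∨ a = -1 → mulHeight₁ a ≤ (Z : ℝ) := by
    rintro a (rfl | rfl)
    · rw [mulHeight₁_one]
      exact hZ1
    · rw [mulHeight₁_neg, mulHeight₁_one]
      exact hZ1
  by_cases hij : i = j
  · left
    rw [hij, div_self (hW0 j), map_one, one_pow]
  by_cases hex : ∃ i0 ∈ C, i0 ≠ i ∧ i0 ≠ j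
  swap
  · left
    push Not at hex
    have hC : C = {i, j} := by
      ext l
      rw [Finset.mem_insert, Finset.mem_singleton]
      constructor
      · intro hl
        by_contra hcon
        push Not at hcon
        exact hcon.2 (hex l hl hcon.1)
      · rintro (rfl | rfl)
        · exact hi
        · exact hj
    rw [hC, Finset.sum_pair hij] at h0
    rw [← map_pow, ← map_one σ]
    congr 1
    rw [mul_comm 2 g, pow_mul, div_pow]
    have h1 : W j ^ g ≠ 0 := pow_ne_zero _ (hW0 j)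
    have h2 := hsq i
    have h3 := hsq j
    rw [div_pow, div_eq_one_iff_eq (pow_ne_zero _ h1)]
    have h4 : s i * W i ^ g = - (s j * W j ^ g) := by linear_combination h0
    have h5 : (s i * W i ^ g) ^ 2 = (s j * W j ^ g) ^ 2 := by rw [h4]; ring
    rw [mul_pow, mul_pow, h2, h3, one_mul, one_mul] at h5
    exact h5
  right
  obtain ⟨i0, hi0, hi0i, hi0j⟩ := hex
  obtain ⟨C', hC'⟩ : ∃ C', C' = C.erase i0 := ⟨_, rfl⟩
  have hi' : i ∈ C' := by
    rw [hC', Finset.mem_erase]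
    exact ⟨fun h => hi0i h.symm, hi⟩
  have hj' : j ∈ C' := by
    rw [hC', Finset.mem_erase]
    exact ⟨fun h => hi0j h.symm, hj⟩
  have e : C' ≃ Fin C'.card := C'.equivFin
  have hsum : ∀ φ : ι → K, ∑ l : Fin C'.card, φ (e.symm l).1 = ∑ l ∈ C', φ l := by
    intro φ
    rw [← Finset.sum_coe_sort C', ← Equiv.sum_comp e.symm]
  have hcard : C'.card + 1 = C.card := by
    rw [hC']
    exact Finset.card_erase_add_one hi0
  refine ⟨C'.card, Finset.card_pos.2 ⟨i, hi'⟩, hcard.le, fun l => σ (W (e.symm l).1), ?_,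
    e ⟨i, hi'⟩, e ⟨j, hj'⟩, ?_⟩
  swap
  · show σ (W i / W j) = σ (W (e.symm (e ⟨i, hi'⟩)).1) / σ (W (e.symm (e ⟨j, hj'⟩)).1)
    rw [Equiv.symm_apply_apply, Equiv.symm_apply_apply, map_div₀]
  have hp : ∀ l : Fin C'.card, ∏ q, (Fin.append y (fun j => (y j)⁻¹) : Fin (P + P) → K) q ^
      ((fun l : Fin C'.card => (Fin.append (fun j => (F (e.symm l).1 j).toNat)
        (fun j => (-F (e.symm l).1 j).toNat) : Fin (P + P) → ℕ)) l q) = W (e.symm l).1 := by
    intro l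
    rw [hW]
    exact split y (F (e.symm l).1)
  refine ⟨K, inferInstance, inferInstance, σ, Fin.append y (fun j => (y j)⁻¹),
    fun l => s (e.symm l).1, -s i0, W i0, fun l => Fin.append
      (fun j => (F (e.symm l).1 j).toNat) (fun j => (-F (e.symm l).1 j).toNat), fun _ => 0, g, g,
    hκ, hR, hg, hR, hg, fun l q => append_le (fun j => hF _ j) q, fun q => ?_, fun q => ?_,
    fun l => ⟨hs0 _, hone _ (hs _)⟩, neg_ne_zero.2 (hs0 _), hone _ ?_, fun l => ?_,
    fun J hJ => ?_, ?_⟩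
  · simp only [Nat.cast_zero]
    positivity
  · refine Fin.addCases (fun j => ?_) (fun j => ?_) q
    · rw [Fin.append_left]
      exact hy j
    · rw [Fin.append_right, mulHeight₁_inv]
      exact ⟨inv_ne_zero (hy j).1, (hy j).2⟩
  · rcases hs i0 with h | h
    · right; rw [h]
    · left; rw [h, neg_neg]
  · rw [hp l]
  · simp only [hp, Int.cast_one, one_mul]
    intro hcon
    obtain ⟨J', hJ'⟩ : ∃ J' : Finset ι, J' = J.map
      (e.symm.toEmbedding.trans (Function.Embedding.subtype _)) := ⟨_, rfl⟩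
    have h1 : ∑ l ∈ J', s l * W l ^ g = 0 := by
      rw [hJ', Finset.sum_map]
      exact hcon
    have h2 : J' ⊆ C' := by
      intro l hl
      rw [hJ', Finset.mem_map] at hl
      obtain ⟨l', _, rfl⟩ := hl
      exact (e.symm l').2
    have h3 : J'.Nonempty := by
      rw [hJ']
      exact hJ.map
    have h4 := hmin J' (h2.trans (by rw [hC']; exact Finset.erase_subset _ _)) h3 h1
    have h5 : i0 ∈ J' := by rw [h4]; exact hi0
    have h6 := h2 h5
    rw [hC'] at h6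
    exact Finset.notMem_erase _ _ h6
  · simp only [hp, Int.cast_one, one_mul, pow_zero, Finset.prod_const_one, mul_one]
    rw [hsum fun l => s l * W l ^ g]
    have h1 := Finset.add_sum_erase C (fun l => s l * W l ^ g) hi0
    rw [h0, ← hC'] at h1
    linear_combination h1

/-! ## Partitions of six terms -/

/-- no part has one element or is a pair of different signs -/
def good (B : Finset (Fin 6)) : Prop := B ≠ ∅ ∧ (∀ i, B ≠ {i} ∧ Bᶜ ≠ {i}) ∧
  ∀ i j : Fin 6, i.1 < 3 → 3 ≤ j.1 → B ≠ {i, j} ∧ Bᶜ ≠ {i, j}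

instance (B : Finset (Fin 6)) : Decidable (good B) := by unfold good; infer_instance

/-- membership -/
def ind (B : Finset (Fin 6)) (i : Fin 6) : ℤ := if i ∈ B then 1 else 0

theorem colour : ∀ B : Finset (Fin 6), good B → B = Finset.univ ∨
    ind B 0 - ind B 3 - ind B 4 ≠ ind B 5 - ind B 1 - ind B 2 := by
  decide

theorem ind_cases (B : Finset (Fin 6)) (i : Fin 6) : ind B i = 0 ∨ ind B i = 1 := by
  unfold ind
  split_ifs
  · exact Or.inr rfl
  · exact Or.inl rfl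

/-- the number of the terms of positive sign -/
def ev (C : Finset (Fin 6)) : ℕ := (C.filter fun i => i.1 < 3).card

theorem pair_ev {K : Type} [Field K] (A : Fin 6 → K)
    (hp : ∀ i j : Fin 6, i.1 < 3 → 3 ≤ j.1 → A i + A j ≠ 0) (C : Finset (Fin 6))
    (hC : C.card = 2) (hs : ∑ i ∈ C, A i = 0) : ev C = 0 ∨ ev C = 2 := by
  obtain ⟨i, j, hne, rfl⟩ := Finset.card_eq_two.1 hC
  rw [Finset.sum_pair hne] at hs
  unfold ev
  by_cases hi : i.1 < 3 <;> by_cases hj : j.1 < 3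
  · right
    rw [Finset.filter_true_of_mem, hC]
    intro l hl
    rcases Finset.mem_insert.1 hl with rfl | hl
    · exact hi
    · rw [Finset.mem_singleton.1 hl]
      exact hj
  · exact absurd hs (hp i j hi (by omega))
  · exact absurd (by rw [add_comm]; exact hs) (hp j i hj (by omega))
  · left
    rw [Finset.filter_false_of_mem, Finset.card_empty]
    intro l hl
    rcases Finset.mem_insert.1 hl with rfl | hl
    · exact hi
    · rw [Finset.mem_singleton.1 hl]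
      exact hj

/-- the minimal vanishing partial sums -/
theorem blocks {K : Type} [Field K] (A : Fin 6 → K) (h0 : ∀ i, A i ≠ 0) (hs : ∑ i, A i = 0)
    (hp : ∀ i j : Fin 6, i.1 < 3 → 3 ≤ j.1 → A i + A j ≠ 0) :
    ∃ B : Finset (Fin 6), ∑ i ∈ B, A i = 0 ∧ ∑ i ∈ Bᶜ, A i = 0 ∧
      (∀ J ⊆ B, J.Nonempty → ∑ i ∈ J, A i = 0 → J = B) ∧
      (∀ J ⊆ Bᶜ, J.Nonempty → ∑ i ∈ J, A i = 0 → J = Bᶜ) ∧ good B := by
  classical
  obtain ⟨S, hS⟩ : ∃ S : Finset (Finset (Fin 6)), S =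
    Finset.univ.filter fun J => J.Nonempty ∧ ∑ i ∈ J, A i = 0 := ⟨_, rfl⟩
  have hmem : ∀ J, J ∈ S ↔ J.Nonempty ∧ ∑ i ∈ J, A i = 0 := by
    intro J
    rw [hS, Finset.mem_filter]
    exact ⟨fun h => h.2, fun h => ⟨Finset.mem_univ _, h⟩⟩
  obtain ⟨B, hBS, hBm⟩ := Finset.exists_min_image S Finset.card
    ⟨Finset.univ, (hmem _).2 ⟨Finset.univ_nonempty, hs⟩⟩
  obtain ⟨hBn, hB0⟩ := (hmem B).1 hBS
  have hBc : ∑ i ∈ Bᶜ, A i = 0 := by
    have := Finset.sum_add_sum_compl B A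
    rw [hB0, hs, zero_add] at this
    exact this
  have hone : ∀ J : Finset (Fin 6), ∑ i ∈ J, A i = 0 → J.card ≠ 1 := by
    intro J hJ hc
    obtain ⟨i, rfl⟩ := Finset.card_eq_one.1 hc
    rw [Finset.sum_singleton] at hJ
    exact h0 i hJ
  have hpair : ∀ J : Finset (Fin 6), ∑ i ∈ J, A i = 0 → ∀ i j : Fin 6, i.1 < 3 → 3 ≤ j.1 →
      J ≠ {i, j} := by
    rintro J hJ i j hi hj rfl
    rw [Finset.sum_pair (by rintro rfl; omega)] at hJ
    exact hp i j hi hj hJ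
  refine ⟨B, hB0, hBc, ?_, ?_, ?_⟩
  · intro J hJB hJn hJ0
    exact Finset.eq_of_subset_of_card_le hJB (hBm J ((hmem J).2 ⟨hJn, hJ0⟩))
  · intro J hJB hJn hJ0
    by_contra hne
    obtain ⟨J2, hJ2⟩ : ∃ J2, J2 = Bᶜ \ J := ⟨_, rfl⟩
    have h1 : ∑ i ∈ J2, A i + ∑ i ∈ J, A i = ∑ i ∈ Bᶜ, A i := by
      rw [hJ2]
      exact Finset.sum_sdiff hJB
    rw [hJ0, hBc, add_zero] at h1
    have h2 : J2.Nonempty := by
      rw [hJ2, Finset.sdiff_nonempty]
      intro h
      exact hne (Finset.Subset.antisymm hJB h)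
    have h3 := hBm J ((hmem J).2 ⟨hJn, hJ0⟩)
    have h4 := hBm J2 ((hmem J2).2 ⟨h2, h1⟩)
    have h5 : J2.card + J.card = Bᶜ.card := by
      rw [hJ2]
      exact Finset.card_sdiff_add_card_eq_card hJB
    have h6 : B.card + Bᶜ.card = 6 := by
      have := Finset.card_add_card_compl B
      rwa [Fintype.card_fin] at this
    have h7 : B.card ≠ 1 := hone B hB0
    have h8 : B.card ≠ 0 := by
      rw [Ne, Finset.card_eq_zero]
      exact hBn.ne_empty
    have c1 : B.card = 2 := by omega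
    have c2 : J.card = 2 := by omega
    have c3 : J2.card = 2 := by omega
    have e1 := pair_ev A hp B c1 hB0
    have e2 := pair_ev A hp J c2 hJ0
    have e3 := pair_ev A hp J2 c3 h1
    have e4 : ev J2 + ev J = ev Bᶜ := by
      unfold ev
      rw [hJ2, ← Finset.card_union_of_disjoint, ← Finset.filter_union,
        Finset.sdiff_union_of_subset hJB]
      exact Finset.disjoint_filter_filter Finset.sdiff_disjoint
    have e5 : ev B + ev Bᶜ = 3 := by
      unfold ev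
      rw [← Finset.card_union_of_disjoint, ← Finset.filter_union, Finset.union_compl]
      · decide
      · exact Finset.disjoint_filter_filter disjoint_compl_right
    omega
  · refine ⟨hBn.ne_empty, fun i => ⟨?_, ?_⟩, fun i j hi hj => ⟨hpair B hB0 i j hi hj,
      hpair _ hBc i j hi hj⟩⟩
    · intro h
      exact hone B hB0 (by rw [h, Finset.card_singleton])
    · intro h
      exact hone _ hBc (by rw [h, Finset.card_singleton])

/-- two systems of terms with the same ratios in the parts differ by roots of unity -/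
theorem rho (B : Finset (Fin 6)) (hB : good B) (w : Fin 6 → ℂ) (h0 : ∀ i, w i ≠ 0)
    (hw : ∀ i j, (i ∈ B ↔ j ∈ B) → w i = w j) (h1 : w 0 = w 3 * w 4) (h2 : w 5 = w 1 * w 2)
    (i : Fin 6) : w i ^ 6 = 1 := by
  classical
  rcases colour B hB with h | h
  · have h3 : ∀ i j, w i = w j := by
      intro i j
      refine hw i j ?_
      rw [h]
      exact ⟨fun _ => Finset.mem_univ _, fun _ => Finset.mem_univ _⟩
    have h4 : w 0 = 1 := by
      rw [h3 3 0, h3 4 0] at h1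
      have := h0 0
      field_simp at h1
      exact h1.symm
    rw [h3 i 0, h4, one_pow]
  obtain ⟨i0, hi0⟩ := Finset.nonempty_iff_ne_empty.2 hB.1
  obtain ⟨s, hs⟩ : ∃ s, s = w i0 := ⟨_, rfl⟩
  have hs0 : s ≠ 0 := by rw [hs]; exact h0 _
  obtain ⟨t, ht0, ht⟩ : ∃ t : ℂ, t ≠ 0 ∧ ∀ j, j ∉ B → w j = t := by
    by_cases hex : ∃ j, j ∉ B
    · obtain ⟨j0, hj0⟩ := hex
      exact ⟨w j0, h0 _, fun j hj => hw j j0 ⟨fun h => absurd h hj, fun h => absurd h hj0⟩⟩
    · exact ⟨1, one_ne_zero, fun j hj => absurd ⟨j, hj⟩ hex⟩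
  have hst : ∀ j, w j = s ^ ind B j * t ^ (1 - ind B j) := by
    intro j
    unfold ind
    by_cases hj : j ∈ B
    · rw [if_pos hj, zpow_one, sub_self, zpow_zero, mul_one, hs]
      exact hw j i0 ⟨fun _ => hi0, fun _ => hj⟩
    · rw [if_neg hj, zpow_zero, one_mul, sub_zero, zpow_one]
      exact ht j hj
  obtain ⟨x, hx⟩ : ∃ x, x = ind B 0 - ind B 3 - ind B 4 := ⟨_, rfl⟩
  obtain ⟨y, hy⟩ : ∃ y, y = ind B 5 - ind B 1 - ind B 2 := ⟨_, rfl⟩
  have r1 : s ^ x * t ^ (-1 - x) = 1 := by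
    have h3 : s ^ x * t ^ (-1 - x) = w 0 / (w 3 * w 4) := by
      rw [hst 0, hst 3, hst 4, hx, eq_div_iff (by positivity)]
      rw [show s ^ (ind B 0 - ind B 3 - ind B 4) * t ^ (-1 - (ind B 0 - ind B 3 - ind B 4)) *
        (s ^ ind B 3 * t ^ (1 - ind B 3) * (s ^ ind B 4 * t ^ (1 - ind B 4))) =
        (s ^ (ind B 0 - ind B 3 - ind B 4) * s ^ ind B 3 * s ^ ind B 4) *
        (t ^ (-1 - (ind B 0 - ind B 3 - ind B 4)) * t ^ (1 - ind B 3) * t ^ (1 - ind B 4)) by ring,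
        ← zpow_add₀ hs0, ← zpow_add₀ hs0, ← zpow_add₀ ht0, ← zpow_add₀ ht0]
      congr 2 <;> ring
    rw [h3, h1, div_self (mul_ne_zero (h0 3) (h0 4))]
  have r2 : s ^ y * t ^ (-1 - y) = 1 := by
    have h3 : s ^ y * t ^ (-1 - y) = w 5 / (w 1 * w 2) := by
      rw [hst 5, hst 1, hst 2, hy, eq_div_iff (by positivity)]
      rw [show s ^ (ind B 5 - ind B 1 - ind B 2) * t ^ (-1 - (ind B 5 - ind B 1 - ind B 2)) *
        (s ^ ind B 1 * t ^ (1 - ind B 1) * (s ^ ind B 2 * t ^ (1 - ind B 2))) =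
        (s ^ (ind B 5 - ind B 1 - ind B 2) * s ^ ind B 1 * s ^ ind B 2) *
        (t ^ (-1 - (ind B 5 - ind B 1 - ind B 2)) * t ^ (1 - ind B 1) * t ^ (1 - ind B 2)) by ring,
        ← zpow_add₀ hs0, ← zpow_add₀ hs0, ← zpow_add₀ ht0, ← zpow_add₀ ht0]
      congr 2 <;> ring
    rw [h3, h2, div_self (mul_ne_zero (h0 1) (h0 2))]
  have k1 : s ^ (x - y) = 1 := by
    have h3 : s ^ (x - y) = (s ^ x * t ^ (-1 - x)) ^ (1 + y) * (s ^ y * t ^ (-1 - y)) ^ (-(1 + x)) := by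
      rw [mul_zpow, mul_zpow, ← zpow_mul, ← zpow_mul, ← zpow_mul, ← zpow_mul]
      rw [show s ^ (x * (1 + y)) * t ^ ((-1 - x) * (1 + y)) * (s ^ (y * -(1 + x)) *
        t ^ ((-1 - y) * -(1 + x))) = (s ^ (x * (1 + y)) * s ^ (y * -(1 + x))) *
        (t ^ ((-1 - x) * (1 + y)) * t ^ ((-1 - y) * -(1 + x))) by ring,
        ← zpow_add₀ hs0, ← zpow_add₀ ht0]
      rw [show (-1 - x) * (1 + y) + (-1 - y) * -(1 + x) = 0 by ring, zpow_zero, mul_one]
      congr 1
      ring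
    rw [h3, r1, r2, one_zpow, one_zpow, mul_one]
  have k2 : t ^ (x - y) = 1 := by
    have h3 : t ^ (x - y) = (s ^ x * t ^ (-1 - x)) ^ y * (s ^ y * t ^ (-1 - y)) ^ (-x) := by
      rw [mul_zpow, mul_zpow, ← zpow_mul, ← zpow_mul, ← zpow_mul, ← zpow_mul]
      rw [show s ^ (x * y) * t ^ ((-1 - x) * y) * (s ^ (y * -x) * t ^ ((-1 - y) * -x)) =
        (s ^ (x * y) * s ^ (y * -x)) * (t ^ ((-1 - x) * y) * t ^ ((-1 - y) * -x)) by ring,
        ← zpow_add₀ hs0, ← zpow_add₀ ht0]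
      rw [show x * y + y * -x = 0 by ring, zpow_zero, one_mul]
      congr 1
      ring
    rw [h3, r1, r2, one_zpow, one_zpow, mul_one]
  have k3 : ∃ k : ℤ, 6 = (x - y) * k := by
    have a0 := ind_cases B 0
    have a1 := ind_cases B 1
    have a2 := ind_cases B 2
    have a3 := ind_cases B 3
    have a4 := ind_cases B 4
    have a5 := ind_cases B 5
    rw [← hx, ← hy] at h
    have h3 : x - y = -3 ∨ x - y = -2 ∨ x - y = -1 ∨ x - y = 1 ∨ x - y = 2 ∨ x - y = 3 := by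
      omega
    rcases h3 with h3 | h3 | h3 | h3 | h3 | h3
    · exact ⟨-2, by rw [h3]; norm_num⟩
    · exact ⟨-3, by rw [h3]; norm_num⟩
    · exact ⟨-6, by rw [h3]; norm_num⟩
    · exact ⟨6, by rw [h3]; norm_num⟩
    · exact ⟨3, by rw [h3]; norm_num⟩
    · exact ⟨2, by rw [h3]; norm_num⟩
  obtain ⟨k, hk⟩ := k3
  have s6 : s ^ 6 = 1 := by
    have : s ^ (6 : ℤ) = 1 := by rw [hk, zpow_mul, k1, one_zpow]
    exact_mod_cast this
  have t6 : t ^ 6 = 1 := by
    have : t ^ (6 : ℤ) = 1 := by rw [hk, zpow_mul, k2, one_zpow]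
    exact_mod_cast this
  by_cases hi : i ∈ B
  · rw [hw i i0 ⟨fun _ => hi0, fun _ => hi⟩, ← hs, s6]
  · rw [ht i hi, t6]

/-! ## The count -/

/-- the terms belonging to the class `t = (m, n, α)` -/
structure Dat (L : Set ℂ) (t : ℕ × ℕ × ℂ) (B : Finset (Fin 6)) (w : Fin 6 → ℂ) : Prop where
  ne : ∀ i, w i ≠ 0
  e0 : w 0 = w 3 * w 4
  e5 : w 5 = w 1 * w 2
  gd : good B
  rt : ∀ i j, (i ∈ B ↔ j ∈ B) → w i / w j ∈ L
  eq : t.2.2 * w 3 ^ Nat.gcd t.1 t.2.1 + (1 - t.2.2) * w 2 ^ Nat.gcd t.1 t.2.1 = 1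
  df : w 3 ^ Nat.gcd t.1 t.2.1 ≠ w 2 ^ Nat.gcd t.1 t.2.1

theorem dat_card (L : Finset ℂ) (M : ℕ) (T : Finset (ℕ × ℕ × ℂ))
    (hT : ∀ t ∈ T, t.1 < M ∧ t.2.1 < M ∧ ∃ B w, Dat L t B w) :
    T.card ≤ 36 * (M * (M * (64 * (L.card + 1) ^ 36))) := by
  classical
  choose! hM1 hM2 B w hD using hT
  obtain ⟨key, hkey⟩ : ∃ key : ℕ × ℕ × ℂ → ℕ × ℕ × Finset (Fin 6) × (Fin 6 × Fin 6 → ℂ),
    key = fun t => (t.1, t.2.1, B t, fun p => if (p.1 ∈ B t ↔ p.2 ∈ B t) then
      w t p.1 / w t p.2 else 0) := ⟨_, rfl⟩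
  have himg : T.image key ⊆ Finset.range M ×ˢ (Finset.range M ×ˢ (Finset.univ ×ˢ
      Fintype.piFinset fun _ : Fin 6 × Fin 6 => insert 0 L)) := by
    intro k hk
    obtain ⟨t, ht, rfl⟩ := Finset.mem_image.1 hk
    rw [hkey]
    refine Finset.mem_product.2 ⟨Finset.mem_range.2 (hM1 t ht), Finset.mem_product.2
      ⟨Finset.mem_range.2 (hM2 t ht), Finset.mem_product.2 ⟨Finset.mem_univ _,
      Fintype.mem_piFinset.2 fun p => ?_⟩⟩⟩
    show (if (p.1 ∈ B t ↔ p.2 ∈ B t) then w t p.1 / w t p.2 else 0) ∈ insert 0 L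
    split_ifs with h
    · exact Finset.mem_insert_of_mem ((hD t ht).rt _ _ h)
    · exact Finset.mem_insert_self _ _
  have hc : (T.image key).card ≤ M * (M * (64 * (L.card + 1) ^ 36)) := by
    refine (Finset.card_le_card himg).trans ?_
    rw [Finset.card_product, Finset.card_product, Finset.card_product, Finset.card_range,
      Finset.card_univ, Fintype.card_finset, Fintype.card_fin, Fintype.card_piFinset,
      Finset.prod_const, Finset.card_univ, Fintype.card_prod, Fintype.card_fin]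
    have h1 : (insert 0 L).card ≤ L.card + 1 := Finset.card_insert_le _ _
    have h2 : (insert 0 L).card ^ (6 * 6) ≤ (L.card + 1) ^ 36 := Nat.pow_le_pow_left h1 36
    have h3 : (2 : ℕ) ^ 6 = 64 := by norm_num
    rw [h3]
    exact Nat.mul_le_mul_left _ (Nat.mul_le_mul_left _ (Nat.mul_le_mul_left _ h2))
  refine (Finset.card_le_mul_card_image T 36 fun k hk => ?_).trans (Nat.mul_le_mul_left _ hc)
  rcases Finset.eq_empty_or_nonempty (T.filter fun t => key t = k) with h0 | ⟨t0, ht0⟩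
  · rw [h0, Finset.card_empty]
    exact Nat.zero_le _
  obtain ⟨a1, a2⟩ := Finset.mem_filter.1 ht0
  obtain ⟨N6, hN6⟩ : ∃ N6 : Finset ℂ, N6 = (Polynomial.nthRoots 6 (1 : ℂ)).toFinset := ⟨_, rfl⟩
  have hN6c : N6.card ≤ 6 := by
    rw [hN6]
    exact (Multiset.toFinset_card_le _).trans (Polynomial.card_nthRoots _ _)
  calc (T.filter fun t => key t = k).card ≤ (N6 ×ˢ N6).card := ?_
    _ ≤ 36 := by
      rw [Finset.card_product]
      calc N6.card * N6.card ≤ 6 * 6 := Nat.mul_le_mul hN6c hN6c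
        _ = 36 := by norm_num
  refine Finset.card_le_card_of_injOn (fun t => (w t 3 / w t0 3, w t 2 / w t0 2))
    (fun t ht => ?_) ?_
  · obtain ⟨b1, b2⟩ := Finset.mem_filter.1 (Finset.mem_coe.1 ht)
    have h1 : key t = key t0 := b2.trans a2.symm
    rw [hkey] at h1
    have h1' : (t.1, t.2.1, B t, fun p : Fin 6 × Fin 6 => if (p.1 ∈ B t ↔ p.2 ∈ B t) then
        w t p.1 / w t p.2 else 0) = (t0.1, t0.2.1, B t0, fun p : Fin 6 × Fin 6 =>
        if (p.1 ∈ B t0 ↔ p.2 ∈ B t0) then w t0 p.1 / w t0 p.2 else 0) := h1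
    rw [Prod.mk.injEq, Prod.mk.injEq, Prod.mk.injEq] at h1'
    obtain ⟨-, -, hBt, hr⟩ := h1'
    have hrat : ∀ i j, (i ∈ B t ↔ j ∈ B t) → w t i / w t j = w t0 i / w t0 j := by
      intro i j hij
      have h2 := congrFun hr (i, j)
      have hij0 : i ∈ B t0 ↔ j ∈ B t0 := by rw [← hBt]; exact hij
      simpa only [if_pos hij, if_pos hij0] using h2
    have hD1 := hD t b1
    have hD0 := hD t0 a1
    have key6 := rho (B t) hD1.gd (fun i => w t i / w t0 i)
      (fun i => div_ne_zero (hD1.ne i) (hD0.ne i)) (fun i j hij => by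
        have h2 := hrat i j hij
        have n1 := hD1.ne j
        have n2 := hD0.ne i
        have n3 := hD0.ne j
        rw [div_eq_div_iff n1 n3] at h2
        rw [div_eq_div_iff n2 n3]
        linear_combination h2) (by
        show w t 0 / w t0 0 = w t 3 / w t0 3 * (w t 4 / w t0 4)
        rw [hD1.e0, hD0.e0, mul_div_mul_comm]) (by
        show w t 5 / w t0 5 = w t 1 / w t0 1 * (w t 2 / w t0 2)
        rw [hD1.e5, hD0.e5, mul_div_mul_comm])
    rw [Finset.mem_coe, Finset.mem_product, hN6, Multiset.mem_toFinset, Multiset.mem_toFinset,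
      Polynomial.mem_nthRoots (by norm_num), Polynomial.mem_nthRoots (by norm_num)]
    exact ⟨key6 3, key6 2⟩
  · intro t ht t' ht' hh
    obtain ⟨b1, b2⟩ := Finset.mem_filter.1 (Finset.mem_coe.1 ht)
    obtain ⟨c1, c2⟩ := Finset.mem_filter.1 (Finset.mem_coe.1 ht')
    have h1 : key t = key t' := b2.trans c2.symm
    rw [hkey] at h1
    have h1' : (t.1, t.2.1, B t, fun p : Fin 6 × Fin 6 => if (p.1 ∈ B t ↔ p.2 ∈ B t) then
        w t p.1 / w t p.2 else 0) = (t'.1, t'.2.1, B t', fun p : Fin 6 × Fin 6 =>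
        if (p.1 ∈ B t' ↔ p.2 ∈ B t') then w t' p.1 / w t' p.2 else 0) := h1
    rw [Prod.mk.injEq, Prod.mk.injEq, Prod.mk.injEq] at h1'
    obtain ⟨hm, hn, -, -⟩ := h1'
    have hh' : (w t 3 / w t0 3, w t 2 / w t0 2) = (w t' 3 / w t0 3, w t' 2 / w t0 2) := hh
    rw [Prod.mk.injEq] at hh'
    have hD1 := hD t b1
    have hD2 := hD t' c1
    have hD0 := hD t0 a1
    have e3 : w t 3 = w t' 3 := (div_left_inj' (hD0.ne 3)).1 hh'.1
    have e2 : w t 2 = w t' 2 := (div_left_inj' (hD0.ne 2)).1 hh'.2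
    have q1 := hD1.eq
    have q2 := hD2.eq
    have q3 := hD1.df
    rw [← hm, ← hn, ← e3, ← e2] at q2
    have h5 : (t.2.2 - t'.2.2) * (w t 3 ^ Nat.gcd t.1 t.2.1 - w t 2 ^ Nat.gcd t.1 t.2.1) = 0 := by
      linear_combination q1 - q2
    have h6 : t.2.2 = t'.2.2 := by
      rcases mul_eq_zero.1 h5 with h6 | h6
      · exact sub_eq_zero.1 h6
      · exact absurd (sub_eq_zero.1 h6) q3
    exact Prod.ext hm (Prod.ext hn h6)

end Pool.Agent.N741.UN
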